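import Pool.Agent.P.MP_48d5fc_al.ThC

/-!
Elements of finite order are trivial or involutions inverting the cusp generators.
-/

open Classical Filter Topology

set_option linter.unusedSectionVars false
set_option linter.unusedVariables false

noncomputable section

namespace Pool.Agent.P.MP_48d5fc_al

theorem dvd_of_emult {p a b : ℤ} {r : ℕ} (h : emultiplicity p a = emultiplicity p b + 1)
    (hd : p ^ (r + 1) ∣ a) : p ^ r ∣ b := by
  rw [pow_dvd_iff_le_emultiplicity] at hd ⊢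
  rw [h, Nat.cast_succ] at hd
  exact (ENat.add_le_add_iff_right ENat.one_ne_top).1 hd

theorem nt_odd {p r : ℕ} (hp : p.Prime) (ho : Odd p) {c : ℤ} (h : (p : ℤ) ^ (r + 1) ∣ c ^ p - 1) :
    (p : ℤ) ^ r ∣ c - 1 := by
  have : Fact p.Prime := ⟨hp⟩
  have h1 : (p : ℤ) ∣ c ^ p - 1 := (dvd_pow_self _ r.succ_ne_zero).trans h
  have h2 : (c : ZMod p) = 1 := by
    have := (ZMod.intCast_zmod_eq_zero_iff_dvd _ p).2 h1
    rwa [Int.cast_sub, Int.cast_pow, ZMod.pow_card, Int.cast_one, sub_eq_zero] at this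
  have h3 := Int.emultiplicity_pow_sub_pow hp ho (x := c) (y := 1)
    ((ZMod.intCast_zmod_eq_zero_iff_dvd _ p).1 (by simp [h2])) (fun e => by
      rw [← ZMod.intCast_zmod_eq_zero_iff_dvd, h2] at e
      exact one_ne_zero e) p
  rw [one_pow, hp.emultiplicity_self] at h3
  exact dvd_of_emult h3 h

theorem nt_two {r : ℕ} {c e : ℤ} (h4 : 4 ∣ c - e) (hc : ¬ 2 ∣ c) (he : e ^ 2 = 1)
    (h : 2 ^ (r + 1) ∣ c ^ 2 - 1) : 2 ^ r ∣ c - e := by
  have h3 := Int.two_pow_sub_pow' 2 h4 hc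
  have e2 : emultiplicity (2 : ℤ) ((2 : ℕ) : ℤ) = 1 := by
    have := Int.natCast_emultiplicity 2 2
    rw [Nat.prime_two.emultiplicity_self] at this
    exact this
  rw [he, e2] at h3
  exact dvd_of_emult h3 h

theorem odd_of_dvd {c : ℤ} {n : ℕ} (hn : n ≠ 0) (h : 2 ∣ c ^ n - 1) : ¬ 2 ∣ c := fun e => by
  have := dvd_sub (dvd_pow e hn) h
  omega

variable {F : Type} [Group F] [TopologicalSpace F] [IsTopologicalGroup F] [CompactSpace F]
  [T2Space F] {x y : F} {φ : Monoid.End F} {f : Fin 3 → F}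

theorem sq_eq_one_of_pow (hF : FreePro x y) (h : Sp x y φ f) (n : ℕ) (hn : 0 < n)
    (hφ : φ ^ n = 1) : φ ^ 2 = 1 := by
  induction n using Nat.strong_induction_on with
  | _ n ih =>
    by_cases h4 : 4 ∣ n
    · obtain ⟨k, rfl⟩ := h4
      have : Fact (Nat.Prime 2) := ⟨Nat.prime_two⟩
      have h1 := h.pow k
      have e : (φ ^ k) ^ 4 = 1 := by rw [← pow_mul, mul_comm, hφ]
      refine ih (k * 2) (by omega) (by omega) ?_
      rw [pow_mul]
      refine thB (p := 2) hF (h1.pow 2) (by rw [← pow_mul, e]) fun r => ?_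
      obtain ⟨c, hc⟩ := h1.lam.ex hF (pow_ne_zero (r + 1) two_ne_zero)
      have h2 := hc.pow_dvd hF h1.cont (pow_ne_zero _ two_ne_zero) e
      push_cast at h2
      have h3 := odd_of_dvd (by norm_num) ((dvd_pow_self _ r.succ_ne_zero).trans h2)
      refine (hc.pow h1.cont 2).mono (pow_dvd_pow _ r.le_succ) ?_
      push_cast
      refine nt_two ?_ (fun e => h3 (Int.prime_two.dvd_of_dvd_pow e)) (one_pow _)
        (by rwa [← pow_mul])
      obtain ⟨t, rfl⟩ : ∃ t, c = 2 * t + 1 := ⟨c / 2, by omega⟩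
      exact ⟨t ^ 2 + t, by ring⟩
    by_cases h2 : n ∣ 2
    · obtain ⟨k, hk⟩ := h2
      rw [hk, pow_mul, hφ, one_pow]
    obtain ⟨p, hp, hpn, hp2⟩ : ∃ p, p.Prime ∧ p ∣ n ∧ p ≠ 2 := by
      by_contra hcon
      push Not at hcon
      have e := Nat.eq_prime_pow_of_unique_prime_dvd hn.ne' fun {d} hd hdn => hcon d hd hdn
      generalize n.primeFactorsList.length = l at e
      rcases l with _ | _ | l
      · simp [e] at h2
      · simp [e] at h2
      · exact h4 ⟨2 ^ l, by rw [e]; ring⟩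
    obtain ⟨k, rfl⟩ := hpn
    have : Fact p.Prime := ⟨hp⟩
    have hk : 0 < k := Nat.pos_of_mul_pos_left hn
    have h1 := h.pow k
    have e : (φ ^ k) ^ p = 1 := by rw [← pow_mul, mul_comm, hφ]
    refine ih k (by nlinarith [hp.one_lt]) hk (thB (p := p) hF h1 e fun r => ?_)
    obtain ⟨c, hc⟩ := h1.lam.ex hF (pow_ne_zero (r + 1) hp.ne_zero)
    have h2 := hc.pow_dvd hF h1.cont (pow_ne_zero _ hp.ne_zero) e
    refine hc.mono (pow_dvd_pow _ r.le_succ) ?_
    push_cast at h2 ⊢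
    exact nt_odd hp (hp.odd_of_ne_two hp2) h2

theorem artin_schreier (hF : FreePro x y) (h : Sp x y φ f) (n : ℕ) (hn : 0 < n)
    (hφ : φ ^ n = 1) : φ = 1 ∨ (φ ^ 2 = 1 ∧ φ x = x⁻¹) := by
  have h2 := sq_eq_one_of_pow hF h n hn hφ
  have : Fact (Nat.Prime 2) := ⟨Nat.prime_two⟩
  have aux : ∀ e : ℤ, e ^ 2 = 1 → Lam x y φ f 4 e → ∀ r, Lam x y φ f (2 ^ r) e := by
    intro e he hl r
    obtain ⟨c, hc⟩ := h.lam.ex hF (pow_ne_zero (r + 2) two_ne_zero)
    have h3 := hc.pow_dvd hF h.cont (pow_ne_zero _ two_ne_zero) h2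
    push_cast at h3
    refine hc.mono (pow_dvd_pow _ (by omega)) ?_
    push_cast
    refine nt_two ((hc.mono (k' := 4) ⟨2 ^ r, by ring⟩ (by simp)).unique hF (by norm_num) hl)
      (odd_of_dvd two_ne_zero ((dvd_pow_self _ (by omega)).trans h3)) he
      ((pow_dvd_pow _ (by omega)).trans h3)
  obtain ⟨c, hc⟩ := h.lam.ex hF (k := 4) (by norm_num)
  have h3 := hc.pow_dvd hF h.cont (by norm_num) h2
  have h4 := odd_of_dvd two_ne_zero ((by norm_num : (2 : ℤ) ∣ (4 : ℕ)).trans h3)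
  by_cases h5 : 4 ∣ c - 1
  · exact Or.inl (thB (p := 2) hF h h2 (aux 1 (by norm_num) (hc.mono dvd_rfl h5)))
  have hl := aux (-1) (by norm_num) (hc.mono dvd_rfl (by push_cast; omega))
  refine Or.inr ⟨h2, ?_⟩
  have := Lam.exact hF (c := -1) (fun k hk => Lam.of_prime_pow hF h (fun q r hq => ?_) hk) 0
  · rwa [h.f0, one_mul, inv_one, mul_one, zpow_neg_one] at this
  by_cases e : q = 2
  · exact e ▸ hl r
  obtain ⟨c, hc⟩ := h.lam.ex hF (pow_ne_zero (r + 1) hq.ne_zero)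
  have h6 := hc.pow_dvd hF h.cont (pow_ne_zero _ hq.ne_zero) h2
  refine hc.mono (pow_dvd_pow _ r.le_succ) ?_
  have h7 : ¬ (q : ℤ) ∣ c - 1 := fun e1 => hq.ne_one (thC hF h h2 hl (hq.odd_of_ne_two e)
    (hc.mono (dvd_pow_self _ r.succ_ne_zero) e1))
  push_cast at h6 ⊢
  rw [show c ^ 2 - 1 = (c - 1) * (c - -1) by ring] at h6
  exact (pow_dvd_pow _ r.le_succ).trans
    ((Nat.prime_iff_prime_int.1 hq).pow_dvd_of_dvd_mul_left _ h7 h6)

end Pool.Agent.P.MP_48d5fc_al
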