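import Mathlib

/-!
Contracted monoid algebras on a finite factor-closed set of monoid elements.
-/

open Classical

set_option linter.unusedSectionVars false

noncomputable section

namespace Pool.Agent.P.MP_48d5fc_al

/-- A finite factor-closed set of elements of a monoid. -/
structure Gd (M : Type) [Monoid M] where
  p : M → Prop
  one : p 1
  left : ∀ u v, p (u * v) → p u
  right : ∀ u v, p (u * v) → p v
  fin : Finite {m // p m}

variable {M M' M'' : Type} [Monoid M] [Monoid M'] [Monoid M'']

abbrev Gd.T (G : Gd M) : Type := {m // G.p m}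

instance (G : Gd M) : Fintype G.T := @Fintype.ofFinite _ G.fin

/-- Functions on the good elements, with convolution. -/
def Cv (G : Gd M) (k : Type) : Type := G.T → k

variable {k : Type} [CommRing k] {G : Gd M} {G' : Gd M'} {G'' : Gd M''}

instance : AddCommGroup (Cv G k) := inferInstanceAs (AddCommGroup (G.T → k))

instance [Finite k] : Finite (Cv G k) := inferInstanceAs (Finite (G.T → k))

instance : Mul (Cv G k) :=
  ⟨fun f g m => ∑ u : G.T, ∑ v : G.T, if u.1 * v.1 = m.1 then f u * g v else 0⟩

instance : One (Cv G k) := ⟨fun m => if m.1 = 1 then 1 else 0⟩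

theorem Cv.mul_apply (f g : Cv G k) (m : G.T) :
    (f * g) m = ∑ u : G.T, ∑ v : G.T, if u.1 * v.1 = m.1 then f u * g v else 0 := rfl

theorem Cv.one_apply (m : G.T) : (1 : Cv G k) m = if m.1 = 1 then 1 else 0 := rfl
theorem Cv.add_apply (f g : Cv G k) (m : G.T) : (f + g) m = f m + g m := rfl
theorem Cv.sub_apply (f g : Cv G k) (m : G.T) : (f - g) m = f m - g m := rfl
theorem Cv.zero_apply (m : G.T) : (0 : Cv G k) m = 0 := rfl

theorem Cv.ext {f g : Cv G k} (h : ∀ m, f m = g m) : f = g := funext h

theorem sum_good (x : M) (F : G.T → k) :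
    (∑ a : G.T, if x = a.1 then F a else 0) = if h : G.p x then F ⟨x, h⟩ else 0 := by
  split_ifs with h
  · rw [Finset.sum_eq_single ⟨x, h⟩]
    · simp
    · intro b _ hb
      rw [if_neg]
      intro e
      exact hb (Subtype.ext e.symm)
    · simp
  · refine Finset.sum_eq_zero fun b _ => ?_
    rw [if_neg]
    intro e
    exact h (e ▸ b.2)

/-- Restriction of coefficients from the full monoid algebra. -/
def res (G : Gd M) (x : MonoidAlgebra k M) : Cv G k := fun m => x.coeff m.1

theorem res_mul (x y : MonoidAlgebra k M) : res G (x * y) = res G x * res G y := by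
  refine Cv.ext fun m => ?_
  rw [Cv.mul_apply, ← Finset.sum_product', Finset.univ_product_univ, ← Finset.sum_filter]
  unfold res
  rw [MonoidAlgebra.coeff_mul_antidiag x y m.1
    ((Finset.univ.filter fun q : G.T × G.T => q.1.1 * q.2.1 = m.1).image
      fun q => (q.1.1, q.2.1))]
  · rw [Finset.sum_image]
    intro a _ b _ h
    simp only [Prod.mk.injEq] at h
    exact Prod.ext (Subtype.ext h.1) (Subtype.ext h.2)
  · rintro ⟨u, v⟩
    simp only [Finset.mem_image, Finset.mem_filter, Finset.mem_univ, true_and, Prod.mk.injEq]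
    constructor
    · rintro ⟨q, h, rfl, rfl⟩
      exact h
    · intro h
      have hm := m.2
      rw [← h] at hm
      exact ⟨(⟨u, G.left _ _ hm⟩, ⟨v, G.right _ _ hm⟩), h, rfl, rfl⟩

theorem res_one : res G (1 : MonoidAlgebra k M) = 1 := by
  refine Cv.ext fun m => ?_
  simp [res, Cv.one_apply, MonoidAlgebra.one_def, Finsupp.single_apply, eq_comm]

theorem res_add (x y : MonoidAlgebra k M) : res G (x + y) = res G x + res G y := by
  refine Cv.ext fun m => ?_
  simp [res, Cv.add_apply]

theorem res_zero : res G (0 : MonoidAlgebra k M) = 0 := by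
  refine Cv.ext fun m => ?_
  simp [res, Cv.zero_apply]

theorem res_surj (f : Cv G k) : ∃ x : MonoidAlgebra k M, res G x = f := by
  refine ⟨MonoidAlgebra.ofCoeff (Finsupp.mapDomain Subtype.val
    (Finsupp.equivFunOnFinite.symm f)), Cv.ext fun m => ?_⟩
  simp only [res]
  rw [Finsupp.mapDomain_apply Subtype.val_injective]
  rfl

instance : Ring (Cv G k) :=
  { (inferInstance : AddCommGroup (Cv G k)), (inferInstance : Mul (Cv G k)),
    (inferInstance : One (Cv G k)) with
    mul_assoc := fun f g h => by
      obtain ⟨x, rfl⟩ := res_surj f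
      obtain ⟨y, rfl⟩ := res_surj g
      obtain ⟨z, rfl⟩ := res_surj h
      simp only [← res_mul, mul_assoc]
    one_mul := fun f => by
      obtain ⟨x, rfl⟩ := res_surj f
      rw [← res_one, ← res_mul, one_mul]
    mul_one := fun f => by
      obtain ⟨x, rfl⟩ := res_surj f
      rw [← res_one, ← res_mul, mul_one]
    zero_mul := fun f => Cv.ext fun m => by simp [Cv.mul_apply, Cv.zero_apply]
    mul_zero := fun f => Cv.ext fun m => by simp [Cv.mul_apply, Cv.zero_apply]
    left_distrib := fun f g h => by
      obtain ⟨x, rfl⟩ := res_surj f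
      obtain ⟨y, rfl⟩ := res_surj g
      obtain ⟨z, rfl⟩ := res_surj h
      simp only [← res_mul, ← res_add, mul_add]
    right_distrib := fun f g h => by
      obtain ⟨x, rfl⟩ := res_surj f
      obtain ⟨y, rfl⟩ := res_surj g
      obtain ⟨z, rfl⟩ := res_surj h
      simp only [← res_mul, ← res_add, add_mul] }

instance {M : Type} [CommMonoid M] {G : Gd M} : CommRing (Cv G k) :=
  { (inferInstance : Ring (Cv G k)) with
    mul_comm := fun f g => by
      obtain ⟨x, rfl⟩ := res_surj f
      obtain ⟨y, rfl⟩ := res_surj g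
      simp only [← res_mul, mul_comm] }

theorem Cv.sum_apply {ι : Type} (s : Finset ι) (F : ι → Cv G k) (m : G.T) :
    (∑ i ∈ s, F i) m = ∑ i ∈ s, F i m := Finset.sum_apply m s F

/-- A multiple of a basis element. -/
def dl (G : Gd M) (u : M) (a : k) : Cv G k := fun m => if u = m.1 then a else 0

theorem res_single (u : M) (a : k) : res G (MonoidAlgebra.single u a) = dl G u a := by
  refine Cv.ext fun m => ?_
  simp [res, dl, Finsupp.single_apply]

theorem dl_mul (u v : M) (a b : k) : dl G u a * dl G v b = dl G (u * v) (a * b) := by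
  rw [← res_single, ← res_single, ← res_mul, MonoidAlgebra.single_mul_single, res_single]

theorem dl_bad {u : M} (h : ¬ G.p u) (a : k) : dl G u a = 0 := by
  refine Cv.ext fun m => ?_
  rw [dl, if_neg, Cv.zero_apply]
  intro e
  exact h (e ▸ m.2)

theorem dl_add (u : M) (a b : k) : dl G u (a + b) = dl G u a + dl G u b := by
  refine Cv.ext fun m => ?_
  simp only [dl, Cv.add_apply]
  split_ifs <;> simp

theorem dl_zero (u : M) : dl G u (0 : k) = 0 := by
  refine Cv.ext fun m => ?_
  simp [dl, Cv.zero_apply]

theorem dl_one : dl G 1 (1 : k) = 1 := by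
  refine Cv.ext fun m => ?_
  simp [dl, Cv.one_apply, eq_comm]

/-- Push-forward along a monoid map that reflects good elements. -/
def pushFun (G : Gd M) (G' : Gd M') (s : M →* M') (f : Cv G k) : Cv G' k :=
  fun m' => ∑ m : G.T, if s m.1 = m'.1 then f m else 0

theorem pushFun_res (s : M →* M') (hs : ∀ m, G'.p (s m) → G.p m) (x : MonoidAlgebra k M) :
    pushFun G G' s (res G x) = res G' (MonoidAlgebra.mapDomain s x) := by
  induction x using MonoidAlgebra.induction_linear with
  | zero =>
    refine Cv.ext fun m => ?_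
    simp [pushFun, res]
  | add x y hx hy =>
    rw [MonoidAlgebra.mapDomain_add, res_add, res_add, ← hx, ← hy]
    refine Cv.ext fun m => ?_
    simp only [pushFun, Cv.add_apply, ← Finset.sum_add_distrib]
    refine Finset.sum_congr rfl fun u _ => ?_
    split_ifs <;> simp
  | single u a =>
    rw [MonoidAlgebra.mapDomain_single, res_single, res_single]
    refine Cv.ext fun m => ?_
    have e : ∀ w : G.T, (if s w.1 = m.1 then dl G u a w else 0) =
        if u = w.1 then (if s u = m.1 then a else 0) else 0 := by
      intro w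
      by_cases h : u = w.1
      · simp [dl, h]
      · simp [dl, h]
    simp only [pushFun, e]
    rw [sum_good u fun _ => if s u = m.1 then a else 0]
    by_cases h : s u = m.1
    · have : G.p u := hs u (h ▸ m.2)
      simp [this, dl, h]
    · simp [dl, h]

/-- Push-forward as a ring map. -/
def push (G : Gd M) (G' : Gd M') (s : M →* M') (hs : ∀ m, G'.p (s m) → G.p m) :
    Cv G k →+* Cv G' k where
  toFun := pushFun G G' s
  map_one' := by rw [← res_one, pushFun_res s hs, ← res_one]; simp [MonoidAlgebra.one_def]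
  map_zero' := by rw [← res_zero, pushFun_res s hs, ← res_zero]; simp
  map_add' f g := by
    obtain ⟨x, rfl⟩ := res_surj f
    obtain ⟨y, rfl⟩ := res_surj g
    rw [← res_add, pushFun_res s hs, pushFun_res s hs, pushFun_res s hs, ← res_add,
      MonoidAlgebra.mapDomain_add]
  map_mul' f g := by
    obtain ⟨x, rfl⟩ := res_surj f
    obtain ⟨y, rfl⟩ := res_surj g
    rw [← res_mul, pushFun_res s hs, pushFun_res s hs, pushFun_res s hs, ← res_mul,
      MonoidAlgebra.mapDomain_mul]

theorem push_apply (s : M →* M') (hs : ∀ m, G'.p (s m) → G.p m) (f : Cv G k) (m' : G'.T) :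
    push G G' s hs f m' = ∑ m : G.T, if s m.1 = m'.1 then f m else 0 := rfl

theorem push_res (s : M →* M') (hs : ∀ m, G'.p (s m) → G.p m) (x : MonoidAlgebra k M) :
    push G G' s hs (res G x) = res G' (MonoidAlgebra.mapDomain s x) := pushFun_res s hs x

theorem push_dl (s : M →* M') (hs : ∀ m, G'.p (s m) → G.p m) (u : M) (a : k) :
    push G G' s hs (dl G u a) = dl G' (s u) a := by
  rw [← res_single, push_res, MonoidAlgebra.mapDomain_single, res_single]

theorem push_push (s : M →* M') (hs : ∀ m, G'.p (s m) → G.p m) (t : M' →* M'')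
    (ht : ∀ m, G''.p (t m) → G'.p m) (r : M →* M'') (hr : ∀ m, G''.p (r m) → G.p m)
    (h : ∀ m, t (s m) = r m) (f : Cv G k) :
    push G' G'' t ht (push G G' s hs f) = push G G'' r hr f := by
  obtain ⟨x, rfl⟩ := res_surj f
  rw [push_res, push_res, push_res]
  have e : (r : M → M'') = t ∘ s := funext fun m => (h m).symm
  rw [e]
  simp only [MonoidAlgebra.mapDomain, Finsupp.mapDomain_comp]

theorem push_eq (s : M →* M') (hs : ∀ m, G'.p (s m) → G.p m) (f : Cv G k) (m' : G'.T)
    (m : G.T) (h : ∀ u : M, s u = m'.1 ↔ m.1 = u) : push G G' s hs f m' = f m := by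
  rw [push_apply]
  simp only [h]
  rw [sum_good m.1 f, dif_pos m.2]

/-- The filtration by a length function. -/
def Jl (len : M → ℕ) (j : ℕ) (f : Cv G k) : Prop := ∀ m : G.T, len m.1 < j → f m = 0

theorem Jl.mul {len : M → ℕ} (hl : ∀ u v, len (u * v) = len u + len v) {i j : ℕ} {f g : Cv G k}
    (hf : Jl len i f) (hg : Jl len j g) : Jl len (i + j) (f * g) := by
  intro m hm
  rw [Cv.mul_apply]
  refine Finset.sum_eq_zero fun u _ => Finset.sum_eq_zero fun v _ => ?_
  split_ifs with h
  · rw [← h, hl] at hm
    by_cases h1 : len u.1 < i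
    · rw [hf u h1, zero_mul]
    · rw [hg v (by omega), mul_zero]
  · rfl

end Pool.Agent.P.MP_48d5fc_al
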