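import Pool.Agent.P.MP_48d5fc_al.Pro

/-!
The reciprocity law for the fixed cusps of an automorphism of prime order.
-/

open Classical Filter Topology

set_option linter.unusedSectionVars false
set_option linter.unusedVariables false

noncomputable section

namespace Pool.Agent.P.MP_48d5fc_al

theorem exists_rep {Γ Q : Type} [AddCommGroup Γ] (τ : Γ → Q → Q) (h0 : ∀ q, τ 0 q = q)
    (hadd : ∀ i j q, τ (i + j) q = τ i (τ j q)) :
    ∃ (rep : Q → Q) (k : Q → Γ), (∀ q, τ (k q) (rep q) = q) ∧ ∀ i q, rep (τ i q) = rep q := by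
  let S : Setoid Q := ⟨fun a b => ∃ i, τ i a = b, ⟨fun a => ⟨0, h0 a⟩, by
    rintro a b ⟨i, rfl⟩
    exact ⟨-i, by rw [← hadd, neg_add_cancel, h0]⟩, by
    rintro a b c ⟨i, rfl⟩ ⟨j, rfl⟩
    exact ⟨j + i, hadd _ _ _⟩⟩⟩
  have h : ∀ q, ∃ i, τ i (Quotient.mk S q).out = q := fun q => Quotient.mk_out (s := S) q
  choose k hk using h
  refine ⟨fun q => (Quotient.mk S q).out, k, hk, fun i q => ?_⟩
  have : Quotient.mk S q = Quotient.mk S (τ i q) := Quotient.sound ⟨i, rfl⟩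
  simp only [this]

theorem prod_free {Γ Q D : Type} [AddCommGroup Γ] [Fintype Γ] [CommMonoid D] (τ : Γ → Q → Q)
    (h0 : ∀ q, τ 0 q = q) (hadd : ∀ i j q, τ (i + j) q = τ i (τ j q)) (S : Finset Q)
    (hS : ∀ i q, q ∈ S → τ i q ∈ S) (free : ∀ q ∈ S, ∀ i, τ i q = q → i = 0) (G : Q → D)
    (hG : ∀ q ∈ S, ∏ i, G (τ i q) = 1) : ∏ q ∈ S, G q = 1 := by
  obtain ⟨rep, k, hk, hrep⟩ := exists_rep τ h0 hadd
  rw [← Finset.prod_fiberwise_of_maps_to (g := rep) (t := S.image rep)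
    fun q hq => Finset.mem_image_of_mem rep hq]
  refine Finset.prod_eq_one fun r hr => ?_
  obtain ⟨q0, hq0, rfl⟩ := Finset.mem_image.1 hr
  have e0 : rep q0 = τ (-k q0) q0 := by
    conv_rhs => rw [← hk q0]
    rw [hk q0]
    conv_rhs => rw [show τ (-k q0) q0 = τ (-k q0) (τ (k q0) (rep q0)) by rw [hk]]
    rw [← hadd, neg_add_cancel, h0]
  have hr0 : rep q0 ∈ S := e0 ▸ hS _ _ hq0
  have hrr : rep (rep q0) = rep q0 := by
    conv_lhs => rw [e0]
    rw [hrep]
  have e : (S.filter fun q => rep q = rep q0) = Finset.univ.image fun i => τ i (rep q0) := by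
    ext q
    simp only [Finset.mem_filter, Finset.mem_image, Finset.mem_univ, true_and]
    constructor
    · rintro ⟨-, h⟩
      exact ⟨k q, by rw [← h, hk]⟩
    · rintro ⟨i, rfl⟩
      exact ⟨hS _ _ hr0, by rw [hrep, hrr]⟩
  rw [e, Finset.prod_image, hG _ hr0]
  intro i _ j _ h
  have : τ (-j + i) (rep q0) = rep q0 := by
    rw [hadd]
    simp only at h
    rw [h, ← hadd, neg_add_cancel, h0]
  exact (neg_add_eq_zero.1 (free _ hr0 _ this)).symm

theorem prod_zmod_val {D : Type} [CommMonoid D] (e : ℕ) [NeZero e] (G : ℕ → D) :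
    ∏ i : ZMod e, G i.val = ∏ i ∈ Finset.range e, G i := by
  cases e with
  | zero => exact absurd rfl (NeZero.ne 0)
  | succ n => exact (Finset.prod_range G).symm

variable {F : Type} [Group F] [TopologicalSpace F] [IsTopologicalGroup F] [CompactSpace F]
  {N : Subgroup F} [N.Normal] [Fintype (F ⧸ N)]

theorem prod_kappa_indep {D : Type} [CommGroup D] (s s' : F ⧸ N → F)
    (hs : ∀ q, (s q : F ⧸ N) = q) (hs' : ∀ q, (s' q : F ⧸ N) = q) (ψ : N →* D) (u : F) :
    ∏ q, (kappa s' hs' ψ u).left q = ∏ q, (kappa s hs ψ u).left q := by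
  let b : F ⧸ N → N := fun q => ⟨(s q)⁻¹ * s' q, by
    rw [← QuotientGroup.eq_one_iff]
    simp [hs, hs']⟩
  have e : ∀ q, (kappa s' hs' ψ u).left q =
      (ψ (b q))⁻¹ * (kappa s hs ψ u).left q * ψ (b ((u : F ⧸ N)⁻¹ * q)) := by
    intro q
    change ψ _ = (ψ (b q))⁻¹ * ψ _ * _
    rw [← map_inv, ← map_mul, ← map_mul]
    congr 1
    ext
    simp [b, mul_assoc]
  simp only [e]
  rw [Finset.prod_mul_distrib, Finset.prod_mul_distrib, Finset.prod_inv_distrib]
  have := Equiv.prod_comp (Equiv.mulLeft (u : F ⧸ N)⁻¹) fun q => ψ (b q)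
  simp only [Equiv.coe_mulLeft] at this
  rw [this, mul_right_comm, inv_mul_cancel, one_mul]

theorem prod_left_mul {D : Type} [CommGroup D] (ρ : F →* D ≀ᵣ (F ⧸ N)) (a b : F) :
    ∏ q, (ρ (a * b)).left q = (∏ q, (ρ a).left q) * ∏ q, (ρ b).left q := by
  simp only [map_mul, RegularWreathProduct.mul_left, Pi.mul_apply]
  rw [Finset.prod_mul_distrib]
  have := Equiv.prod_comp (Equiv.mulLeft (ρ a).right⁻¹) fun q => (ρ b).left q
  simp only [Equiv.coe_mulLeft] at this
  rw [this]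

variable {p : ℕ} [hp : Fact p.Prime]

/-- Restriction to an invariant subgroup. -/
def resN (φ : F →* F) (h : ∀ g ∈ N, φ g ∈ N) : N →* N :=
  (φ.comp N.subtype).codRestrict N fun n => h n n.2

/-- The action on the cosets attached to a cocycle. -/
def tau (Φ : ZMod p → F →* F) (hΦ : ∀ i, ∀ g ∈ N, Φ i g ∈ N) (f : ZMod p → F) (i : ZMod p)
    (q : F ⧸ N) : F ⧸ N :=
  (f i : F ⧸ N) * QuotientGroup.map N N (Φ i) (fun g hg => hΦ i g hg) q

theorem tau_mk (Φ : ZMod p → F →* F) (hΦ : ∀ i, ∀ g ∈ N, Φ i g ∈ N) (f : ZMod p → F) (i : ZMod p)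
    (g : F) : tau Φ hΦ f i (g : F ⧸ N) = ((f i * Φ i g : F) : F ⧸ N) := rfl

theorem tau_mul (Φ : ZMod p → F →* F) (hΦ : ∀ i, ∀ g ∈ N, Φ i g ∈ N) (f : ZMod p → F) {u : F}
    (hu : ∀ i, f i * Φ i u = u * f i) (i : ZMod p) (q : F ⧸ N) :
    tau Φ hΦ f i ((u : F ⧸ N) * q) = u * tau Φ hΦ f i q := by
  induction q using QuotientGroup.induction_on with
  | H g =>
    rw [← QuotientGroup.mk_mul, tau_mk, tau_mk, ← QuotientGroup.mk_mul, map_mul, ← mul_assoc, hu,
      mul_assoc]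

theorem cusp_prod (Φ : ZMod p → F →* F) (hΦ : ∀ i, ∀ g ∈ N, Φ i g ∈ N) (h0 : ∀ g, Φ 0 g = g)
    (hadd : ∀ i j g, Φ (i + j) g = Φ i (Φ j g)) (f : ZMod p → F) (u : F)
    (hf : ∀ i j, f (i + j) = f i * Φ i (f j)) (hu : ∀ i, f i * Φ i u = u * f i)
    {D : Type} [CommGroup D] (ρ : F →* D ≀ᵣ (F ⧸ N)) (hρ : ∀ g, (ρ g).right = (g : F ⧸ N))
    (h' : N →* D) (hn : ∀ g, ∏ i, h' (resN (Φ i) (hΦ i) g) = 1)
    (hx : ∀ (x : N) (n : ZMod p → N), (∀ i j, n (i + j) = n i * resN (Φ i) (hΦ i) (n j)) →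
      (∀ i, n i * resN (Φ i) (hΦ i) x = x * n i) → h' x = base ρ hρ x)
    (s : F ⧸ N → F) (hs : ∀ q, (s q : F ⧸ N) = q) :
    ∏ q, (kappa s hs h' u).left q = ∏ q with ∀ i, tau Φ hΦ f i q = q, (ρ u).left q := by
  set τ := tau Φ hΦ f with hτ
  have f0 : f 0 = 1 := by
    have := hf 0 0
    rw [add_zero, h0] at this
    simpa using this
  have τ0 : ∀ q, τ 0 q = q := fun q => by
    induction q using QuotientGroup.induction_on with
    | H g => rw [hτ, tau_mk, f0, h0, one_mul]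
  have τadd : ∀ i j q, τ (i + j) q = τ i (τ j q) := fun i j q => by
    induction q using QuotientGroup.induction_on with
    | H g => rw [hτ, tau_mk, tau_mk, tau_mk, hf, hadd, map_mul, mul_assoc]
  have hu' : ∀ i, f i * Φ i u⁻¹ = u⁻¹ * f i := fun i => by
    rw [map_inv, mul_inv_eq_iff_eq_mul, mul_assoc, hu, inv_mul_cancel_left]
  have τinv : ∀ i q, τ i ((u : F ⧸ N)⁻¹ * q) = (u : F ⧸ N)⁻¹ * τ i q := fun i q =>
    tau_mul Φ hΦ f hu' i q
  have τpow : ∀ (m : ℕ) i q, τ i (((u : F ⧸ N)⁻¹) ^ m * q) = ((u : F ⧸ N)⁻¹) ^ m * τ i q := by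
    intro m i q
    induction m with
    | zero => simp
    | succ m ih => rw [pow_succ', mul_assoc, τinv, ih, mul_assoc]
  have free : ∀ q, (¬ ∀ i, τ i q = q) → ∀ i, τ i q = q → i = 0 := by
    intro q hq i hi
    by_contra hi0
    apply hq
    have h1 : ∀ m : ℕ, τ (m * i) q = q := by
      intro m
      induction m with
      | zero => simpa using τ0 q
      | succ m ih => rw [Nat.cast_succ, add_mul, one_mul, τadd, hi, ih]
    intro j
    have := h1 (j / i).val
    rwa [ZMod.natCast_zmod_val, div_mul_cancel₀ _ hi0] at this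
  have inv : ∀ i q, (¬ ∀ j, τ j q = q) → ¬ ∀ j, τ j (τ i q) = τ i q := by
    intro i q hq h
    apply hq
    have e : τ i q = q := by
      have := h (-i)
      rw [← τadd, neg_add_cancel, τ0] at this
      exact this.symm
    rwa [e] at h
  obtain ⟨rep, k, hk, hrep⟩ := exists_rep τ τ0 τadd
  let s' : F ⧸ N → F := fun q => f (k q) * Φ (k q) (s (rep q))
  have hs' : ∀ q, (s' q : F ⧸ N) = q := fun q => by
    simp only [s']
    rw [← tau_mk Φ hΦ, hs, ← hτ, hk]
  have hequi : ∀ i q, (¬ ∀ j, τ j q = q) → s' (τ i q) = f i * Φ i (s' q) := by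
    intro i q hq
    have h1 : k (τ i q) = i + k q := by
      have h2 : τ (k (τ i q)) (rep q) = τ (i + k q) (rep q) := by
        rw [τadd, hk q, ← hrep i q, hk]
      have h3 : ¬ ∀ j, τ j (rep q) = rep q := fun h => hq (by
        have e : rep q = q := by rw [← h (k q), hk]
        rwa [e] at h)
      have h4 := free _ h3 (-(i + k q) + k (τ i q)) (by
        rw [τadd, h2, ← τadd, neg_add_cancel, τ0])
      exact (neg_add_eq_zero.1 h4).symm
    simp only [s']
    rw [h1, hrep, hf, hadd, map_mul, mul_assoc]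
  rw [← prod_kappa_indep s s' hs hs', ← Finset.prod_filter_mul_prod_filter_not Finset.univ
    fun q => ∀ i, τ i q = q]
  have part1 : ∏ q with ¬ ∀ i, τ i q = q, (kappa s' hs' h' u).left q = 1 := by
    refine prod_free τ τ0 τadd _ (fun i q hq => ?_) (fun q hq => ?_) _ fun q hq => ?_
    · simp only [Finset.mem_filter, Finset.mem_univ, true_and] at hq ⊢
      exact inv i q hq
    · exact free q (Finset.mem_filter.1 hq).2
    · have hq1 := (Finset.mem_filter.1 hq).2
      have hq2 : ¬ ∀ i, τ i ((u : F ⧸ N)⁻¹ * q) = (u : F ⧸ N)⁻¹ * q := fun h => hq1 fun i => by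
        have := h i
        rwa [τinv, mul_right_inj] at this
      let c : N := ⟨(s' q)⁻¹ * u * s' ((u : F ⧸ N)⁻¹ * q), by
        rw [← QuotientGroup.eq_one_iff]
        simp [hs']⟩
      rw [← hn c]
      refine Finset.prod_congr rfl fun i _ => kappa_left _ _ _ _ _ _ ?_
      rw [← τinv, hequi i q hq1, hequi i _ hq2]
      change _ = Φ i ((s' q)⁻¹ * u * s' ((u : F ⧸ N)⁻¹ * q))
      simp only [map_mul, map_inv, mul_inv_rev, mul_assoc, mul_right_inj]
      rw [← mul_assoc u, ← hu, mul_assoc, inv_mul_cancel_left]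
  rw [part1, mul_one, ← div_eq_one, ← Finset.prod_div_distrib]
  set v : F ⧸ N := (u : F ⧸ N)⁻¹ with hv
  set e := orderOf v with he
  have : NeZero e := ⟨(orderOf_pos _).ne'⟩
  have hue : u ^ e ∈ N := by
    rw [← QuotientGroup.eq_one_iff, QuotientGroup.mk_pow, ← inv_eq_one, ← inv_pow]
    exact pow_orderOf_eq_one v
  refine prod_free (Γ := ZMod e) (fun i q => v ^ i.val * q) (fun q => by simp)
    (fun i j q => ?_) _ (fun i q hq => ?_) (fun q hq i hi => ?_) _ fun q hq => ?_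
  · rw [ZMod.val_add, pow_mod_orderOf, pow_add, mul_assoc]
  · simp only [Finset.mem_filter, Finset.mem_univ, true_and] at hq ⊢
    intro j
    rw [τpow, hq]
  · rw [mul_eq_right] at hi
    by_contra hi0
    exact pow_ne_one_of_lt_orderOf (fun h => hi0 ((ZMod.val_eq_zero i).1 h)) (ZMod.val_lt i) hi
  · have hq1 := (Finset.mem_filter.1 hq).2
    rw [prod_zmod_val e fun m => (kappa s' hs' h' u).left (v ^ m * q) / (ρ u).left (v ^ m * q),
      Finset.prod_div_distrib, ← left_pow _ (kappa_right s' hs' h'), ← left_pow ρ hρ, div_eq_one]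
    set g := s' q with hg
    have hgq : (g : F ⧸ N) = q := hs' q
    let xc : N := ⟨g⁻¹ * u ^ e * g, by
      simpa using (inferInstance : N.Normal).conj_mem _ hue g⁻¹⟩
    have h1 : ((u ^ e : F) : F ⧸ N) = 1 := (QuotientGroup.eq_one_iff _).2 hue
    rw [kappa_left s' hs' h' (u ^ e) q xc (by rw [h1, inv_one, one_mul]), ← hgq,
      ← left_conj ρ hρ _ g hue]
    let n : ZMod p → N := fun i => ⟨g⁻¹ * (f i * Φ i g), by
      rw [← QuotientGroup.eq, ← tau_mk Φ hΦ f i g, hgq]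
      exact (hq1 i).symm⟩
    refine hx xc n (fun i j => Subtype.ext ?_) fun i => Subtype.ext ?_
    · change g⁻¹ * (f (i + j) * Φ (i + j) g) = g⁻¹ * (f i * Φ i g) * Φ i (g⁻¹ * (f j * Φ j g))
      simp [hf, hadd, mul_assoc]
    · change g⁻¹ * (f i * Φ i g) * Φ i (g⁻¹ * u ^ e * g) = g⁻¹ * u ^ e * g * (g⁻¹ * (f i * Φ i g))
      have h2 : f i * Φ i u ^ e = u ^ e * f i := (SemiconjBy.pow_right (hu i) e).eq
      simp only [map_mul, map_inv, map_pow, mul_assoc, mul_inv_cancel_left, mul_right_inj]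
      rw [← mul_assoc, h2, mul_assoc]

end Pool.Agent.P.MP_48d5fc_al
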