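import Mathlib

noncomputable section

namespace Pool.Agent.P.MP_48d5fc_al

open ProfiniteGrp

/-- The free profinite group on two generators: the profinite completion of the free group. -/
def F2 : ProfiniteGrp.{0} := ProfiniteCompletion.completion (GrpCat.of (FreeGroup (Fin 2)))

/-- The generator `x`. -/
def gx : F2 := ProfiniteCompletion.etaFn (GrpCat.of (FreeGroup (Fin 2))) (FreeGroup.of 0)

/-- The generator `y`. -/
def gy : F2 := ProfiniteCompletion.etaFn (GrpCat.of (FreeGroup (Fin 2))) (FreeGroup.of 1)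

/-- `z = (x y)⁻¹`. -/
def gz : F2 := (gx * gy)⁻¹

/-- The continuous endomorphism with `x ↦ a`, `y ↦ b`; thus `ev a b f = f(a, b)`. -/
def ev (a b : F2) : F2 →ₜ* F2 :=
  (ProfiniteCompletion.lift (G := GrpCat.of (FreeGroup (Fin 2))) (P := F2)
    (GrpCat.ofHom (FreeGroup.lift ![a, b]))).hom

end Pool.Agent.P.MP_48d5fc_al
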