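import Pool.Agent.P.MP_48d5fc_al.Defs

noncomputable section

namespace Pool.Agent.P.MP_48d5fc_al

open ProfiniteGrp

/-- The profinite integers, written multiplicatively: the profinite completion of `ℤ`. -/
def Zhat : ProfiniteGrp.{0} := ProfiniteCompletion.completion (GrpCat.of (Multiplicative ℤ))

/-- The image of an integer in the profinite integers. -/
def zi (j : ℤ) : Zhat :=
  ProfiniteCompletion.etaFn (GrpCat.of (Multiplicative ℤ)) (Multiplicative.ofAdd j)

/-- Profinite powers: `pw a` is the continuous homomorphism extending `j ↦ a ^ j`, so that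
`pw a m` is `a ^ m`. -/
def pw (a : F2) : Zhat →ₜ* F2 :=
  (ProfiniteCompletion.lift (G := GrpCat.of (Multiplicative ℤ)) (P := F2)
    (GrpCat.ofHom (zpowersHom F2 a))).hom

/-- Relation (I): `f(x, y) f(y, x) = 1`. -/
def RelI (f : F2) : Prop := ev gx gy f * ev gy gx f = 1

/-- Relation (II): `f(z, x) z ^ m f(y, z) y ^ m f(x, y) x ^ m = 1`. -/
def RelII (m : Zhat) (f : F2) : Prop :=
  ev gz gx f * pw gz m * ev gy gz f * pw gy m * ev gx gy f * pw gx m = 1

/-- The continuous endomorphism `x ↦ x ^ l`, `y ↦ f⁻¹ y ^ l f` of the pair `(l, f)`. -/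
def endo (l : Zhat) (f : F2) : F2 →ₜ* F2 := ev (pw gx l) (f⁻¹ * pw gy l * f)

end Pool.Agent.P.MP_48d5fc_al
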