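import Pool.Agent.P.MP_48d5fc_al.Main
import Pool.Agent.P.MP_48d5fc_al.Defs

open Classical Filter Topology

noncomputable section

namespace Pool.Agent.P.MP_48d5fc_al

open ProfiniteGrp CategoryTheory

theorem lift_etaFn {P : ProfiniteGrp.{0}} (φ : FreeGroup (Fin 2) →* P) (w : FreeGroup (Fin 2)) :
    (ProfiniteCompletion.lift (G := GrpCat.of (FreeGroup (Fin 2))) (P := P) (GrpCat.ofHom φ)).hom
      (ProfiniteCompletion.etaFn (GrpCat.of (FreeGroup (Fin 2))) w) = φ w :=
  ConcreteCategory.congr_hom (ProfiniteCompletion.lift_eta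
    (G := GrpCat.of (FreeGroup (Fin 2))) (P := P) (GrpCat.ofHom φ)) w

theorem ev_x (a b : F2) : ev a b gx = a := (lift_etaFn _ _).trans (by simp)

theorem ev_y (a b : F2) : ev a b gy = b := (lift_etaFn _ _).trans (by simp)

theorem freePro : FreePro gx gy where
  ex E _ _ a b := by
    let P : ProfiniteGrp.{0} := ofFiniteGrp (FiniteGrp.of E)
    let φ : FreeGroup (Fin 2) →* P := (FreeGroup.lift ![a, b] : FreeGroup (Fin 2) →* E)
    let ρ := (ProfiniteCompletion.lift (G := GrpCat.of (FreeGroup (Fin 2))) (P := P)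
      (GrpCat.ofHom φ)).hom
    refine ⟨(ρ.toMonoidHom : F2 →* E), ?_, (lift_etaFn φ _).trans ?_, (lift_etaFn φ _).trans ?_⟩
    · have : DiscreteTopology P := ⟨rfl⟩
      have h := ρ.continuous_toFun.tendsto 1
      have h2 : ({ρ 1} : Set P) ∈ 𝓝 (ρ 1) := (isOpen_discrete _).mem_nhds rfl
      filter_upwards [h h2] with g hg
      exact (Set.mem_singleton_iff.1 hg).trans (map_one ρ)
    · exact FreeGroup.lift_apply_of
    · exact FreeGroup.lift_apply_of
  gen H hH hx hy := by
    have hc := H.isClosed_of_isOpen (H.isOpen_of_mem_nhds hH)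
    rw [eq_top_iff]
    intro g _
    refine (ProfiniteCompletion.denseRange (GrpCat.of (FreeGroup (Fin 2)))).induction_on
      (p := fun g : F2 => g ∈ H) g hc fun w => ?_
    let η : FreeGroup (Fin 2) →* F2 := (ProfiniteCompletion.eta (GrpCat.of (FreeGroup (Fin 2)))).hom
    change η w ∈ H
    induction w using FreeGroup.induction_on with
    | C1 => simp
    | of i =>
      fin_cases i
      · exact hx
      · exact hy
    | inv_of i h => rw [map_inv]; exact H.inv_mem h
    | mul a b ha hb => rw [map_mul]; exact H.mul_mem ha hb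
  sep g h := by
    by_contra hg
    obtain ⟨N, hN⟩ := exist_openNormalSubgroup_sub_open_nhds_of_one (G := F2)
      (isOpen_compl_singleton (x := g)) (Ne.symm hg)
    exact hN (h N.toSubgroup inferInstance (N.isOpen.mem_nhds N.one_mem)) rfl

theorem ev_ext {φ ψ : F2 →* F2} (hφ : Continuous φ) (hψ : Continuous ψ) (hx : φ gx = ψ gx)
    (hy : φ gy = ψ gy) (g : F2) : φ g = ψ g := freePro.cont_ext hφ hψ hx hy g

theorem ev_self (f : F2) : ev gx gy f = f :=
  ev_ext (φ := (ev gx gy).toMonoidHom) (ψ := MonoidHom.id _) (ev gx gy).continuous_toFun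
    continuous_id (ev_x _ _) (ev_y _ _) f

theorem ev_ev (a b c d f : F2) : ev a b (ev c d f) = ev (ev a b c) (ev a b d) f :=
  ev_ext (φ := (ev a b).toMonoidHom.comp (ev c d).toMonoidHom) (ψ := (ev _ _).toMonoidHom)
    ((ev a b).continuous_toFun.comp (ev c d).continuous_toFun) (ev _ _).continuous_toFun
    (by simp [ev_x]) (by simp [ev_y]) f

theorem ev_conj (c a b f : F2) : ev (c * a * c⁻¹) (c * b * c⁻¹) f = c * ev a b f * c⁻¹ :=
  ev_ext (φ := (ev _ _).toMonoidHom) (ψ := (MulAut.conj c).toMonoidHom.comp (ev a b).toMonoidHom)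
    (ev _ _).continuous_toFun
    ((continuous_const.mul (ev a b).continuous_toFun).mul continuous_const)
    (by simp [ev_x]) (by simp [ev_y]) f

theorem special {f : F2} (hf : f ∈ (commutator F2).topologicalClosure)
    (hI : ev gx gy f * ev gy gx f = 1) (hII : ev gz gx f * ev gy gz f * ev gx gy f = 1) :
    Special gx gy (ev gx (f⁻¹ * gy * f)).toMonoidHom := by
  have I : ∀ a b, ev b a f = (ev a b f)⁻¹ := fun a b => by
    have := congrArg (ev a b) hI
    rw [map_mul, map_one, ev_ev, ev_ev, ev_x, ev_y] at this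
    exact (inv_eq_of_mul_eq_one_right this).symm
  have h1 := congrArg (ev gy gx) hII
  have hz : ev gy gx gz = (gy * gx)⁻¹ := by rw [gz, map_inv, map_mul, ev_x, ev_y]
  rw [map_mul, map_mul, map_one, ev_ev, ev_ev, ev_ev, ev_x, ev_y, hz] at h1
  have c1 := ev_conj gy gz gy f
  have c2 := ev_conj gx⁻¹ gx gz f
  rw [show gy * gz * gy⁻¹ = (gy * gx)⁻¹ by simp [gz], mul_inv_cancel_right] at c1
  rw [show gx⁻¹ * gz * gx⁻¹⁻¹ = (gy * gx)⁻¹ by simp [gz, mul_assoc],
    show gx⁻¹ * gx * gx⁻¹⁻¹ = gx by simp] at c2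
  rw [c1, c2, I gx gy, ev_self] at h1
  rw [I gx gz, I gz gy, ev_self] at hII
  set g := ev gx gz f with hg
  have h2 : ev gz gy f = f * g⁻¹ := by
    rw [mul_assoc, inv_mul_eq_one] at hII
    rw [hII]
    group
  rw [h2] at h1
  refine ⟨(ev _ _).continuous_toFun, ev_x _ _, ⟨f, hf, ?_⟩,
    ⟨g, map_mem_closure (φ := (ev gx gz).toMonoidHom) (ev _ _).continuous_toFun hf, ?_⟩⟩
  · change f * ev _ _ gy = _
    rw [ev_y]
    group
  · change g * ev _ _ (gx * gy)⁻¹ = _
    rw [map_inv, map_mul, ev_x, ev_y]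
    calc g * (gx * (f⁻¹ * gy * f))⁻¹
        = g * (gy * f)⁻¹ * (gy * (f * g⁻¹) * gy⁻¹ * (gx⁻¹ * g * gx⁻¹⁻¹) * f⁻¹) * (f * gx⁻¹) := by
          rw [h1]; group
      _ = (gx * gy)⁻¹ * g := by group

theorem main {f : F2} (hf : f ∈ (commutator F2).topologicalClosure)
    (hI : ev gx gy f * ev gy gx f = 1) (hII : ev gz gx f * ev gy gz f * ev gx gy f = 1)
    (n : ℕ) (hn : 0 < n) (h : (ev gx (f⁻¹ * gy * f))^[n] = id) : f = 1 := by
  have h1 := torsion_free freePro (special hf hI hII) n hn (by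
    ext g
    rw [Monoid.End.coe_pow]
    exact congrFun h g)
  have h2 : ev gx (f⁻¹ * gy * f) gy = gy := DFunLike.congr_fun h1 gy
  rw [ev_y] at h2
  refine freePro.central ?_ hf
  conv_lhs => rw [← h2]
  group

end Pool.Agent.P.MP_48d5fc_al
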