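import Pool.Agent.P.MP_48d5fc_al.AS
import Pool.Agent.P.MP_48d5fc_al.Final
import Pool.Agent.P.MP_48d5fc_al.Defs2

open Classical Filter Topology

noncomputable section

namespace Pool.Agent.P.MP_48d5fc_al

open ProfiniteGrp CategoryTheory

theorem pw_zi (a : F2) (j : ℤ) : pw a (zi j) = a ^ j :=
  ConcreteCategory.congr_hom (ProfiniteCompletion.lift_eta
    (G := GrpCat.of (Multiplicative ℤ)) (P := F2) (GrpCat.ofHom (zpowersHom F2 a)))
    (Multiplicative.ofAdd j)

theorem dense_zi : DenseRange zi :=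
  ProfiniteCompletion.denseRange (GrpCat.of (Multiplicative ℤ))

theorem zi_ext {X : Type} [TopologicalSpace X] [T2Space X] {a b : Zhat → X} (ha : Continuous a)
    (hb : Continuous b) (h : ∀ j, a (zi j) = b (zi j)) (m : Zhat) : a m = b m :=
  congrFun (dense_zi.equalizer ha hb (funext h)) m

theorem ev_pw (a b c : F2) (m : Zhat) : ev a b (pw c m) = pw (ev a b c) m :=
  zi_ext (a := fun m => ev a b (pw c m)) (b := fun m => pw (ev a b c) m)
    ((ev a b).continuous_toFun.comp (pw c).continuous_toFun)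
    (pw _).continuous_toFun (fun j => by simp only [pw_zi, map_zpow]) m

theorem pw_conj (c a : F2) (m : Zhat) : pw (c * a * c⁻¹) m = c * pw a m * c⁻¹ :=
  zi_ext (a := fun m => pw (c * a * c⁻¹) m) (b := fun m => c * pw a m * c⁻¹)
    (pw _).continuous_toFun
    ((continuous_const.mul (pw a).continuous_toFun).mul continuous_const)
    (fun j => by simp only [pw_zi, conj_zpow]) m

theorem pw_comm (a : F2) (m : Zhat) : pw a m * a = a * pw a m := by
  have := pw_conj a a m
  rw [mul_inv_cancel_right, eq_mul_inv_iff_mul_eq] at this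
  exact this

theorem pw_inj {l : Zhat} {c : ℤ} (h : pw gx l = gx ^ c) : l = zi c := by
  let φ : FreeGroup (Fin 2) →* Zhat := FreeGroup.lift ![zi 1, 1]
  let r := (ProfiniteCompletion.lift (G := GrpCat.of (FreeGroup (Fin 2))) (P := Zhat)
    (GrpCat.ofHom φ)).hom
  have hr : r gx = zi 1 := (lift_etaFn φ _).trans FreeGroup.lift_apply_of
  have hz : ∀ j : ℤ, zi 1 ^ j = zi j := fun j => by
    let η : Multiplicative ℤ →* Zhat := (ProfiniteCompletion.eta (GrpCat.of (Multiplicative ℤ))).hom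
    change η (Multiplicative.ofAdd 1) ^ j = η (Multiplicative.ofAdd j)
    rw [← map_zpow, ← ofAdd_zsmul, zsmul_one, Int.cast_id]
  have e : ∀ m, r (pw gx m) = m := zi_ext (a := fun m => r (pw gx m))
    (r.continuous_toFun.comp (pw gx).continuous_toFun) continuous_id fun j => by
      simp only [pw_zi]
      rw [← hz j, ← hr]
      exact map_zpow r gx j
  rw [← e l, h, ← pw_zi, e]

theorem pw_approx (m : Zhat) {E : Type} [Group E] {ρ : F2 →* E} (hρ : Cts ρ) :
    ∃ j : ℤ, ∀ t, ρ (pw (cus gx gy t) m) = ρ (cus gx gy t) ^ j := by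
  have : ∀ᶠ a in 𝓝 m, ∀ t, ρ (pw (cus gx gy t) a) = ρ (pw (cus gx gy t) m) :=
    eventually_all.2 fun t => by
      have h1 : Continuous fun a => (pw (cus gx gy t) m)⁻¹ * pw (cus gx gy t) a :=
        continuous_const.mul (pw _).continuous_toFun
      have h2 := h1.tendsto m
      rw [inv_mul_cancel] at h2
      filter_upwards [h2.eventually hρ] with a ha
      rw [map_mul, map_inv, inv_mul_eq_one] at ha
      exact ha.symm
  obtain ⟨j, hj⟩ := dense_zi.mem_nhds this
  exact ⟨j, fun t => by rw [← hj t, pw_zi, map_zpow]⟩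

theorem mem_KK {f : F2} (hf : f ∈ (commutator F2).topologicalClosure) : f ∈ KK gx :=
  fun _ _ χ hχ _ => Subgroup.topologicalClosure_minimal _ (Abelianization.commutator_subset_ker χ)
    (χ.ker.isClosed_of_isOpen (χ.ker.isOpen_of_mem_nhds (g := 1) hχ)) hf

theorem sp_pair {l m : Zhat} (hl : l = m * m * zi 1) {f : F2}
    (hf : f ∈ (commutator F2).topologicalClosure) (hI : ev gx gy f * ev gy gx f = 1)
    (hII : ev gz gx f * pw gz m * ev gy gz f * pw gy m * ev gx gy f * pw gx m = 1) :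
    Sp gx gy (ev (pw gx l) (f⁻¹ * pw gy l * f)).toMonoidHom
      ![1, f, ev gx gz f * (pw gx m)⁻¹] := by
  have I : ∀ a b, ev b a f = (ev a b f)⁻¹ := fun a b => by
    have := congrArg (ev a b) hI
    rw [map_mul, map_one, ev_ev, ev_ev, ev_x, ev_y] at this
    exact (inv_eq_of_mul_eq_one_right this).symm
  have L : ∀ a, pw a l = pw a m * pw a m * a := fun a => by
    rw [hl, map_mul, map_mul, pw_zi, zpow_one]
  have h1 := congrArg (ev gy gx) hII
  have hz : ev gy gx gz = (gy * gx)⁻¹ := by rw [gz, map_inv, map_mul, ev_x, ev_y]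
  simp only [map_mul, map_one, ev_ev, ev_pw, ev_x, ev_y, hz] at h1
  have c1 := ev_conj gy gz gy f
  have c2 := ev_conj gx⁻¹ gx gz f
  have c3 := pw_conj gy gz m
  rw [show gy * gz * gy⁻¹ = (gy * gx)⁻¹ by simp [gz]] at c1 c3
  rw [mul_inv_cancel_right] at c1
  rw [show gx⁻¹ * gz * gx⁻¹⁻¹ = (gy * gx)⁻¹ by simp [gz, mul_assoc],
    show gx⁻¹ * gx * gx⁻¹⁻¹ = gx by simp] at c2
  rw [c1, c2, c3, I gx gy, ev_self] at h1
  rw [I gx gz, I gz gy, ev_self] at hII
  set A := ev gx gz f with hA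
  set B := ev gz gy f with hB
  have cx := pw_comm gx m
  have cy := pw_comm gy m
  have Lx := L gx
  have Ly := L gy
  have Lz := L gz
  set X := pw gx m
  set Y := pw gy m
  set Z := pw gz m
  have e1 : Y * f * X = B * Z⁻¹ * A := by
    calc Y * f * X = B * Z⁻¹ * A * (A⁻¹ * Z * B⁻¹ * Y * f * X) := by group
      _ = _ := by rw [hII, mul_one]
  have e2 : gx * X * f⁻¹ * Y * gy = A⁻¹ * gz⁻¹ * Z⁻¹ * B⁻¹ := by
    calc gx * X * f⁻¹ * Y * gy = A⁻¹ * (gx * gy) * Z⁻¹ * B⁻¹ * gy⁻¹ *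
          (gy * B * gy⁻¹ * (gy * Z * gy⁻¹) * (gx⁻¹ * A * gx⁻¹⁻¹) * X * f⁻¹ * Y) * gy := by group
      _ = _ := by
        rw [h1, gz]
        group
  have e3 : A * X⁻¹ * (pw gx l * (f⁻¹ * pw gy l * f))⁻¹ * (A * X⁻¹)⁻¹ = pw gz l := by
    have : pw gx l * (f⁻¹ * pw gy l * f) = X * (gx * X * f⁻¹ * Y * gy) * (Y * f * X) * X⁻¹ := by
      rw [Lx, Ly, mul_assoc X X, cx, mul_assoc Y Y, cy]
      group
    rw [this, e1, e2, Lz]
    simp only [mul_inv_rev, inv_inv, mul_assoc, mul_inv_cancel_left, inv_mul_cancel_left,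
      mul_inv_cancel, mul_one]
  refine ⟨(ev _ _).continuous_toFun, rfl, fun t => ?_, fun E _ _ ρ hρ => ?_⟩
  · fin_cases t
    · exact one_mem _
    · exact mem_KK hf
    · refine mul_mem (mem_KK (map_mem_closure (φ := (ev gx gz).toMonoidHom)
        (ev _ _).continuous_toFun hf)) (inv_mem fun k _ χ hχ hx => ?_)
      obtain ⟨j, hj⟩ := pw_approx m hχ
      have := hj 0
      rwa [show cus gx gy 0 = gx from rfl, hx, one_zpow] at this
  · obtain ⟨j, hj⟩ := pw_approx l hρ
    refine ⟨j, by simp, fun t => (congrArg ρ ?_).trans (hj t)⟩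
    fin_cases t
    · change 1 * ev _ _ gx * 1⁻¹ = pw gx l
      rw [ev_x, one_mul, inv_one, mul_one]
    · change f * ev _ _ gy * f⁻¹ = pw gy l
      rw [ev_y]
      group
    · change A * X⁻¹ * ev _ _ (gx * gy)⁻¹ * (A * X⁻¹)⁻¹ = pw gz l
      rw [map_inv, map_mul, ev_x, ev_y, e3]

theorem main2 {l m : Zhat} (hl : l = m * m * zi 1) {f : F2}
    (hf : f ∈ (commutator F2).topologicalClosure) (hI : ev gx gy f * ev gy gx f = 1)
    (hII : ev gz gx f * pw gz m * ev gy gz f * pw gy m * ev gx gy f * pw gx m = 1)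
    (n : ℕ) (hn : 0 < n) (h : (ev (pw gx l) (f⁻¹ * pw gy l * f))^[n] = id) :
    (l = zi 1 ∧ f = 1) ∨ (l = zi (-1) ∧ (ev (pw gx l) (f⁻¹ * pw gy l * f))^[2] = id) := by
  have hs := sp_pair hl hf hI hII
  rcases artin_schreier freePro hs n hn (by
    ext g
    rw [Monoid.End.coe_pow]
    exact congrFun h g) with h1 | ⟨h1, h2⟩
  · refine Or.inl ⟨pw_inj ?_, ?_⟩
    · rw [zpow_one]
      exact (ev_x _ _).symm.trans (DFunLike.congr_fun h1 gx)
    · rw [h1] at hs
      exact congrFun (hs.eq_one freePro) 1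
  · refine Or.inr ⟨pw_inj ?_, funext fun g => ?_⟩
    · rw [zpow_neg_one]
      exact (ev_x _ _).symm.trans h2
    · have := DFunLike.congr_fun h1 g
      rw [Monoid.End.coe_pow] at this
      exact this

end Pool.Agent.P.MP_48d5fc_al
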