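import Pool.Agent.P.MP_48d5fc_al.Words

/-!
A Smith-type lemma for a projective group with an action of a group of prime order.
-/

open Classical Filter

set_option linter.unusedSectionVars false

noncomputable section

namespace Pool.Agent.P.MP_48d5fc_al

variable {p : ℕ} [hp : Fact p.Prime]

theorem gauge_step (η : ZMod p → WA p) (h1 : ∀ i, J 1 (η i - 1))
    (hc : ∀ i j, J p (η (i + j) - η i * sA i (η j))) {j : ℕ} (hj0 : 0 < j) (hjp : j < p)
    {e : WA p} (he1 : J 1 (e - 1)) (he : ∀ m, J j (η m * sA m e - e)) :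
    ∃ e' : WA p, J 1 (e' - 1) ∧ ∀ m, J (j + 1) (η m * sA m e' - e') := by
  set e' : WA p := patch fun m => η m * sA m e with he'
  have hD : J j (e' - e) := J.patch he
  have he1' : J 1 (e' - 1) := (hD.mono hj0).trans he1
  refine ⟨e', he1', fun m w hw => ?_⟩
  by_cases h0 : len w.1 = 0
  · have : J 1 (η m * sA m e' - e') := ((h1 m).one_mul (he1'.one_sA m)).trans he1'.symm
    exact this w (by omega)
  set k := kk (ms w.1) with hk
  have hD' : J j (η (k - m) * sA (k - m) e - e) := he _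
  have e1 : sA m (e' - e) w = sA m (η (k - m) * sA (k - m) e - e) w := by
    rw [sA_apply, sA_apply, Cv.sub_apply, Cv.sub_apply, he', patch,
      kk_shT (-m) w (by omega) (by omega), ← hk, sub_eq_add_neg k m]
  have e2 : η m * sA m e' = η m * sA m e + sA m (e' - e) + (η m - 1) * sA m (e' - e) := by
    rw [map_sub]; noncomm_ring
  have e3 : η k * sA k e = (η (m + (k - m)) - η m * sA m (η (k - m))) * sA k e + η m * sA m e +
      sA m (η (k - m) * sA (k - m) e - e) +
        (η m - 1) * sA m (η (k - m) * sA (k - m) e - e) := by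
    rw [map_sub, map_mul, sA_sA, add_sub_cancel]; noncomm_ring
  have e4 : e' w = (η k * sA k e) w := rfl
  have z1 : ((η m - 1) * sA m (e' - e)) w = 0 := ((h1 m).mul (hD.sA m)) w (by omega)
  have z2 : ((η m - 1) * sA m (η (k - m) * sA (k - m) e - e)) w = 0 :=
    ((h1 m).mul (hD'.sA m)) w (by omega)
  have z3 : ((η (m + (k - m)) - η m * sA m (η (k - m))) * sA k e) w = 0 :=
    ((hc _ _).mul_right _) w (by omega)
  rw [Cv.sub_apply, e4, e2, e3]
  simp only [Cv.add_apply]
  rw [z1, z2, z3, e1]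
  ring

theorem gauge (η : ZMod p → WA p) (h1 : ∀ i, J 1 (η i - 1))
    (hc : ∀ i j, J p (η (i + j) - η i * sA i (η j))) :
    ∃ e : WA p, J 1 (e - 1) ∧ ∀ m, J p (η m * sA m e - e) := by
  have : ∀ j, 1 ≤ j → j ≤ p → ∃ e : WA p, J 1 (e - 1) ∧ ∀ m, J j (η m * sA m e - e) := by
    intro j hj
    induction j, hj using Nat.le_induction with
    | base =>
      intro _
      exact ⟨1, by simpa using J.zero 1, fun m => by simpa using h1 m⟩
    | succ j hj ih =>
      intro hjp
      obtain ⟨e, he1, he⟩ := ih (by omega)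
      exact gauge_step η h1 hc hj hjp he1 he
  exact this p hp.out.one_le le_rfl

/-- Finite embedding problems are solvable, continuity being measured by a filter. -/
def Proj (N : Type) [Group N] (𝓕 : Filter N) : Prop :=
  ∀ (E R : Type) [Group E] [Finite E] [Monoid R] (π : E →* R) (ψ : N →* R),
    (∀ᶠ g in 𝓕, ψ g = 1) → (∀ g, ∃ e, π e = ψ g) →
      ∃ ψ' : N →* E, (∀ᶠ g in 𝓕, ψ' g = 1) ∧ ∀ g, π (ψ' g) = ψ g

/-- Congruence modulo the length filtration. -/
def conJ (j : ℕ) : Con (WA p) where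
  r f g := J j (f - g)
  iseqv := ⟨fun f => by simpa using J.zero j, J.symm, J.trans⟩
  mul' {a b c d} h1 h2 := by
    have : a * c - b * d = (a - b) * c + b * (c - d) := by noncomm_ring
    change J j (a * c - b * d)
    rw [this]
    exact (J.mul_right h1 c).add (J.mul_left h2 b)

variable {N : Type} [Group N] {𝓕 : Filter N} {Φ : ZMod p → N →* N}

theorem lift_step (hP : Proj N 𝓕) (hadd : ∀ i j g, Φ (i + j) g = Φ i (Φ j g))
    (hcont : ∀ i, Tendsto (Φ i) 𝓕 𝓕) (α : N →* WB p)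
    (hα : ∀ m g, sB m (α (Φ (-m) g)) = α g) (h1 : ∀ g, ∃ u : WA p, J 1 (u - 1) ∧ ab u = α g)
    {j : ℕ} (hj0 : 0 < j) (hjp : j < p) (ψ : N →* (WA p)ˣ) (hψ : ∀ᶠ g in 𝓕, ψ g = 1)
    (hab : ∀ g, ab (ψ g : WA p) = α g)
    (heq : ∀ m g, J j (sA m (ψ (Φ (-m) g) : WA p) - (ψ g : WA p))) :
    ∃ ψ' : N →* (WA p)ˣ, (∀ᶠ g in 𝓕, ψ' g = 1) ∧ (∀ g, ab (ψ' g : WA p) = α g) ∧
      ∀ m g, J (j + 1) (sA m (ψ' (Φ (-m) g) : WA p) - (ψ' g : WA p)) := by
  let tw : ZMod p → N → WA p := fun m g => sA m (ψ (Φ (-m) g) : WA p)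
  let χ : N → WA p := fun g => patch fun m => tw m g
  have habχ : ∀ g, ab (χ g) = α g := fun g => ab_patch fun m => by
    simp only [tw]
    rw [ab_sA, hab, hα]
  have one_of : ∀ {f : WA p} {g : N}, ab f = α g → J 1 (f - 1) := fun {f g} h => by
    obtain ⟨u, hu, hu'⟩ := h1 g
    exact J.of_ab (h.trans hu'.symm) hu
  have hχ1 : ∀ g, J 1 (χ g - 1) := fun g => one_of (habχ g)
  have htw1 : ∀ m g, J 1 (tw m g - 1) := fun m g => (one_of (hab _)).one_sA m
  have hD : ∀ m g, J j (χ g - tw m g) := fun m g =>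
    (J.patch fun i => heq i g).trans (heq m g).symm
  have hmul : ∀ g g', J (j + 1) (χ (g * g') - χ g * χ g') := by
    intro g g' w hw
    set m := kk (ms w.1) with hm
    have e1 : χ (g * g') w = (tw m g * tw m g') w := by
      have : tw m (g * g') = tw m g * tw m g' := by simp [tw]
      rw [← this]
      rfl
    have e2 : χ g * χ g' = tw m g * tw m g' + (χ g - tw m g) + (χ g - tw m g) * (χ g' - 1) +
        (χ g' - tw m g') + (tw m g - 1) * (χ g' - tw m g') := by noncomm_ring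
    have z1 : (χ g - tw m g) w = 0 := sub_self _
    have z2 : (χ g' - tw m g') w = 0 := sub_self _
    have z3 : ((χ g - tw m g) * (χ g' - 1)) w = 0 := ((hD m g).mul (hχ1 g')) w hw
    have z4 : ((tw m g - 1) * (χ g' - tw m g')) w = 0 :=
      ((htw1 m g).mul (hD m g')) w (by omega)
    rw [Cv.sub_apply, e1, e2]
    simp only [Cv.add_apply]
    rw [z1, z2, z3, z4]
    ring
  have hsh : ∀ m g, J (j + 1) (sA m (χ (Φ (-m) g)) - χ g) := by
    intro m g w hw
    by_cases h0 : len w.1 = 0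
    · have : J 1 (sA m (χ (Φ (-m) g)) - χ g) := ((hχ1 _).one_sA m).trans (hχ1 g).symm
      exact this w (by omega)
    rw [Cv.sub_apply, sA_apply, sub_eq_zero]
    simp only [χ, patch, tw]
    rw [kk_shT (-m) w (by omega) (by omega), sA_apply, sA_apply, shT_shT, ← hadd]
    have : -(kk (ms w.1) + -m) + -m = -kk (ms w.1) := by ring
    rw [this]
  have hone : ∀ g, (∀ m, ψ (Φ (-m) g) = 1) → χ g = 1 := by
    intro g hg
    refine Cv.ext fun w => ?_
    simp only [χ, patch, tw, hg]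
    simp
  let ψb : N →* WB p × (conJ (p := p) (j + 1)).Quotient :=
    { toFun := fun g => (α g, (conJ (j + 1)).mk' (χ g))
      map_one' := by
        rw [hone 1 (by simp), map_one, map_one]
        rfl
      map_mul' := fun g g' => by
        rw [Prod.mk_mul_mk, map_mul, ← map_mul]
        congr 1
        exact (Con.eq _).2 (hmul g g') }
  let π : (WA p)ˣ →* WB p × (conJ (p := p) (j + 1)).Quotient :=
    (MonoidHom.prod (ab : WA p →+* WB p).toMonoidHom (conJ (j + 1)).mk').comp (Units.coeHom _)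
  have hev : ∀ᶠ g in 𝓕, ψb g = 1 := by
    have : ∀ᶠ g in 𝓕, ∀ m, ψ (Φ (-m) g) = 1 :=
      eventually_all.2 fun m => (hcont (-m)).eventually hψ
    filter_upwards [this] with g hg
    change (α g, (conJ (j + 1)).mk' (χ g)) = 1
    rw [← habχ, hone g hg, map_one, map_one]
    rfl
  obtain ⟨ψ', hψ', hπ⟩ := hP _ _ π ψb hev fun g =>
    ⟨(hχ1 g).isUnit.unit, Prod.ext (habχ g) rfl⟩
  have hc : ∀ g, J (j + 1) ((ψ' g : WA p) - χ g) := fun g =>
    (Con.eq _).1 (congrArg Prod.snd (hπ g))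
  refine ⟨ψ', hψ', fun g => congrArg Prod.fst (hπ g), fun m g => ?_⟩
  have := (hc (Φ (-m) g)).sA m
  rw [map_sub] at this
  exact (this.trans (hsh m g)).trans (hc g).symm

theorem lift_all (hP : Proj N 𝓕) (hadd : ∀ i j g, Φ (i + j) g = Φ i (Φ j g))
    (hcont : ∀ i, Tendsto (Φ i) 𝓕 𝓕) (α : N →* WB p) (hα1 : ∀ᶠ g in 𝓕, α g = 1)
    (hα : ∀ m g, sB m (α (Φ (-m) g)) = α g) (h1 : ∀ g, ∃ u : WA p, J 1 (u - 1) ∧ ab u = α g) :
    ∃ ψ : N →* (WA p)ˣ, (∀ g, ab (ψ g : WA p) = α g) ∧
      ∀ m g, J p (sA m (ψ (Φ (-m) g) : WA p) - (ψ g : WA p)) := by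
  have : ∀ j, 1 ≤ j → j ≤ p → ∃ ψ : N →* (WA p)ˣ, (∀ᶠ g in 𝓕, ψ g = 1) ∧
      (∀ g, ab (ψ g : WA p) = α g) ∧ ∀ m g, J j (sA m (ψ (Φ (-m) g) : WA p) - (ψ g : WA p)) := by
    intro j hj
    induction j, hj using Nat.le_induction with
    | base =>
      intro _
      obtain ⟨ψ, hψ, hπ⟩ := hP _ _ ((ab : WA p →+* WB p).toMonoidHom.comp (Units.coeHom _)) α hα1
        fun g => by
          obtain ⟨u, hu, hu'⟩ := h1 g
          exact ⟨hu.isUnit.unit, hu'⟩
      have one_of : ∀ g, J 1 ((ψ g : WA p) - 1) := fun g => by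
        obtain ⟨u, hu, hu'⟩ := h1 g
        exact J.of_ab ((hπ g).trans hu'.symm) hu
      exact ⟨ψ, hψ, hπ, fun m g => ((one_of _).one_sA m).trans (one_of g).symm⟩
    | succ j hj ih =>
      intro hjp
      obtain ⟨ψ, h2, h3, h4⟩ := ih (by omega)
      exact lift_step hP hadd hcont α hα h1 hj hjp ψ h2 h3 h4
  obtain ⟨ψ, -, h3, h4⟩ := this p hp.out.one_le le_rfl
  exact ⟨ψ, h3, h4⟩

/-- The Smith-type lemma. -/
theorem key (hP : Proj N 𝓕) (h0 : ∀ g, Φ 0 g = g) (hadd : ∀ i j g, Φ (i + j) g = Φ i (Φ j g))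
    (hcont : ∀ i, Tendsto (Φ i) 𝓕 𝓕) (h : N →* Multiplicative (ZMod p))
    (hh : ∀ᶠ g in 𝓕, h g = 1) :
    ∃ h' : N →* Multiplicative (ZMod p), (∀ g, ∏ i, h' (Φ i g) = 1) ∧
      ∀ (x : N) (n : ZMod p → N), (∀ i j, n (i + j) = n i * Φ i (n j)) →
        (∀ i, n i * Φ i x = x * n i) → h' x = h x := by
  let a : N → ZMod p → ZMod p := fun g i => (h (Φ (-i) g)).toAdd
  let α : N →* WB p :=
    { toFun := fun g => alpha (a g)
      map_one' := by simpa [a] using alpha_zero
      map_mul' := fun g g' => by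
        rw [← alpha_add]
        simp [a] }
  have hα1 : ∀ᶠ g in 𝓕, α g = 1 := by
    have : ∀ᶠ g in 𝓕, ∀ m, h (Φ (-m) g) = 1 :=
      eventually_all.2 fun m => (hcont (-m)).eventually hh
    filter_upwards [this] with g hg
    change alpha (a g) = 1
    simpa [a, hg] using alpha_zero
  have hα : ∀ m g, sB m (α (Φ (-m) g)) = α g := by
    intro m g
    change sB m (alpha _) = alpha _
    rw [sB_alpha]
    congr 1
    funext i
    simp only [a]
    rw [← hadd, show -(i - m) + -m = -i by ring]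
  obtain ⟨ψ, hab, heq⟩ := lift_all hP hadd hcont α hα1 hα fun g => exists_ab _
  have one_of : ∀ g, J 1 ((ψ g : WA p) - 1) := fun g => by
    obtain ⟨u, hu, hu'⟩ := exists_ab (a g)
    exact J.of_ab ((hab g).trans hu'.symm) hu
  have heq' : ∀ m g, J p (sA m (ψ g : WA p) - (ψ (Φ m g) : WA p)) := fun m g => by
    have := heq m (Φ m g)
    rwa [← hadd, neg_add_cancel, h0] at this
  let c : N → WA p := fun g => sA 1 (ψ g : WA p) - (ψ (Φ 1 g) : WA p)
  have hc : ∀ g, J p (c g) := heq' 1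
  have hcmul : ∀ g g', c (g * g') = c g + c g' := by
    intro g g'
    have e : c (g * g') = c g * sA 1 (ψ g' : WA p) + (ψ (Φ 1 g) : WA p) * c g' := by
      simp only [c, map_mul, Units.val_mul]
      noncomm_ring
    rw [e, (hc g).top_mul ((one_of g').one_sA 1), (hc g').mul_top (one_of _)]
  let h' : N →* Multiplicative (ZMod p) := MonoidHom.mk' (fun g => Multiplicative.ofAdd (theta (c g)))
    fun g g' => by rw [hcmul, theta_add, ofAdd_add]
  refine ⟨h', fun g => ?_, fun x n hn hx => ?_⟩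
  · change ∏ i, Multiplicative.ofAdd (theta (c (Φ i g))) = 1
    rw [← ofAdd_sum, ofAdd_eq_one]
    have e : ∀ i, theta (c (Φ i g)) =
        theta (ψ (Φ i g) : WA p) - theta (ψ (Φ (1 + i) g) : WA p) + ∏ m, a g m := by
      intro i
      simp only [c]
      rw [theta_sub, theta_sA, hab, hadd]
      have : α (Φ i g) (top p) = ∏ m, a g m := by
        change alpha _ _ = _
        rw [alpha_top, ← Equiv.prod_comp (Equiv.addRight i)]
        refine Finset.prod_congr rfl fun m _ => ?_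
        simp only [a, Equiv.coe_addRight]
        rw [← hadd, show -(m + i) + i = -m by ring]
      rw [this]
      ring
    simp only [e]
    have e2 := Equiv.sum_comp (Equiv.addLeft (1 : ZMod p)) fun i => theta (ψ (Φ i g) : WA p)
    simp only [Equiv.coe_addLeft] at e2
    rw [Finset.sum_add_distrib, Finset.sum_sub_distrib, e2]
    simp
  · obtain ⟨e, he1, he⟩ := gauge (fun i => (ψ (n i) : WA p)) (fun i => one_of _) fun i j => by
      rw [hn, map_mul, Units.val_mul, ← mul_sub]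
      exact (heq' i (n j)).symm.mul_left _
    obtain ⟨E, rfl⟩ := he1.isUnit
    set ξ : WA p := (ψ x : WA p) with hξ
    set η : WA p := (ψ (n 1) : WA p) with hη
    have hη1 : J 1 (η - 1) := one_of _
    have hξ1 : J 1 (ξ - 1) := one_of _
    have hE1 : J 1 (((E⁻¹ : (WA p)ˣ) : WA p) - 1) := by
      have : ((E⁻¹ : (WA p)ˣ) : WA p) - 1 = (E⁻¹ : (WA p)ˣ) * (1 - (E : WA p)) := by
        rw [mul_sub, Units.inv_mul, mul_one]
      rw [this]
      exact he1.symm.mul_left _
    set ξ' : WA p := (E⁻¹ : (WA p)ˣ) * ξ * E with hξ'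
    have hξ1' : J 1 (ξ' - 1) := (hE1.one_mul hξ1).one_mul he1
    have r1 : η * (ψ (Φ 1 x) : WA p) = ξ * η := by
      rw [hη, hξ, ← Units.val_mul, ← Units.val_mul, ← map_mul, ← map_mul, hx]
    have r2 : (E : WA p) * ξ' = ξ * E := by
      rw [hξ', ← mul_assoc, ← mul_assoc, Units.mul_inv, one_mul]
    have r3 : sA 1 (E : WA p) * sA 1 ξ' = sA 1 ξ * sA 1 (E : WA p) := by
      rw [← map_mul, r2, map_mul]
    set b : WA p := η * sA 1 (E : WA p) - E with hb
    have hbJ : J p b := he 1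
    have r4 : η * sA 1 (E : WA p) = E + b := by rw [hb]; abel
    have r5 : sA 1 ξ = (ψ (Φ 1 x) : WA p) + c x := by simp [c, hξ]
    have r6 : (E + b) * sA 1 ξ' = ξ * (E + b) + c x := by
      rw [← r4, mul_assoc, r3, r5, add_mul, mul_add, ← mul_assoc, r1,
        (hc x).top_mul (he1.one_sA 1), (hc x).mul_top hη1, mul_assoc]
    rw [add_mul, mul_add, hbJ.top_mul (hξ1'.one_sA 1), hbJ.mul_top hξ1, ← r2] at r6
    have r7 : (E : WA p) * (sA 1 ξ' - ξ') = E * c x := by
      rw [(hc x).mul_top he1, mul_sub]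
      have := r6
      rw [add_right_comm, add_left_inj] at this
      rw [this]
      abel
    have r8 : c x = sA 1 ξ' - ξ' := (E.mul_right_inj.1 r7).symm
    have r9 : ab ξ' = α x := by
      rw [hξ', map_mul, map_mul, mul_right_comm, ← map_mul, Units.inv_mul, map_one, one_mul, hab]
    change Multiplicative.ofAdd (theta (c x)) = h x
    rw [r8, theta_sub, theta_sA, r9, add_sub_cancel_left]
    change Multiplicative.ofAdd (alpha _ _) = _
    rw [alpha_top]
    have : ∀ i, a x i = (h x).toAdd := fun i => by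
      have := congrArg h (hx (-i))
      rw [map_mul, map_mul, mul_comm, mul_left_inj] at this
      simp only [a, this]
    simp only [this]
    rw [Finset.prod_const, Finset.card_univ, ZMod.card, ZMod.pow_card]
    rfl

end Pool.Agent.P.MP_48d5fc_al
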