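import Pool.Agent.P.MP_48d5fc_al.Main

/-!
Endomorphisms raising three cusp generators to a common profinite power, up to conjugation.
-/

open Classical Filter Topology

set_option linter.unusedSectionVars false
set_option linter.unusedVariables false

noncomputable section

namespace Pool.Agent.P.MP_48d5fc_al

variable {F : Type} [Group F] [TopologicalSpace F] [IsTopologicalGroup F] [CompactSpace F]
  {x y : F}

/-- Continuity of a homomorphism to a discrete group. -/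
def Cts {E : Type} [Group E] (ρ : F →* E) : Prop := ∀ᶠ g in 𝓝 (1 : F), ρ g = 1

theorem Cts.comp {E : Type} [Group E] {ρ : F →* E} (h : Cts ρ) {φ : F →* F}
    (hφ : Continuous φ) : Cts (ρ.comp φ) := by
  have := hφ.tendsto 1
  rw [map_one] at this
  exact this.eventually h

theorem Cts.prod {E E' : Type} [Group E] [Group E'] {ρ : F →* E} {ρ' : F →* E'} (h : Cts ρ)
    (h' : Cts ρ') : Cts (ρ.prod ρ') := by
  filter_upwards [h, h'] with g h1 h2
  exact Prod.ext h1 h2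

theorem FreePro.sep' (hF : FreePro x y) {a b : F}
    (h : ∀ (E : Type) [Group E] [Finite E] (ρ : F →* E), Cts ρ → ρ a = ρ b) : a = b := by
  rw [← mul_inv_eq_one]
  refine hF.sep _ fun N hNn hN => ?_
  have := finite_quot N hN
  have h1 := h (F ⧸ N) (QuotientGroup.mk' N) (by
    filter_upwards [hN] with g hg
    exact (QuotientGroup.eq_one_iff _).2 hg)
  rw [← QuotientGroup.eq_one_iff, QuotientGroup.mk_mul, QuotientGroup.mk_inv, mul_inv_eq_one]
  exact h1

theorem zpow_eq_of_dvd {E : Type} [Group E] {w : E} {k : ℕ} (h : w ^ k = 1) {j c : ℤ}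
    (hd : (k : ℤ) ∣ j - c) : w ^ j = w ^ c := by
  obtain ⟨t, ht⟩ := hd
  rw [show j = c + k * t by omega, zpow_add, zpow_mul, zpow_natCast, h, one_zpow, mul_one]

/-- The elements killed by all finite cyclic characters that kill `x`. -/
def KK (x : F) : Subgroup F where
  carrier := {w | ∀ (k : ℕ) [NeZero k] (χ : F →* Multiplicative (ZMod k)), Cts χ → χ x = 1 → χ w = 1}
  one_mem' k _ χ _ _ := map_one χ
  mul_mem' {a b} ha hb k _ χ h1 h2 := by rw [map_mul, ha k χ h1 h2, hb k χ h1 h2, one_mul]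
  inv_mem' {a} ha k _ χ h1 h2 := by rw [map_inv, ha k χ h1 h2, inv_one]

theorem FreePro.centralK (hF : FreePro x y) {w : F} (hw : w * y = y * w) (hc : w ∈ KK x) :
    w = 1 := by
  refine hF.sep w fun N hNn hN => ?_
  have := finite_quot N hN
  set e := orderOf ((y : F ⧸ N)⁻¹) with he
  have : NeZero e := ⟨(orderOf_pos _).ne'⟩
  obtain ⟨χ, hχ, hx, hy⟩ := hF.ex (Multiplicative (ZMod e)) 1 (Multiplicative.ofAdd 1)
  have hker : (χ.ker : Set F) ∈ 𝓝 1 := hχ
  have hw1 : w ∈ χ.ker := hc e χ hχ hx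
  obtain ⟨j, hj⟩ := hF.central_mem (N := N ⊓ χ.ker) (inter_mem hN hker) hw
  rw [← QuotientGroup.mk_inv, ← QuotientGroup.mk_pow, QuotientGroup.eq] at hj
  have h1 : χ (y⁻¹ ^ j) = 1 := by
    have := (Subgroup.mem_inf.1 hj).2
    rw [MonoidHom.mem_ker, map_mul, map_inv, MonoidHom.mem_ker.1 hw1] at this
    simpa using this
  have h2 : e ∣ j := by
    rw [map_pow, map_inv, hy, inv_pow, inv_eq_one, ← ofAdd_nsmul, ofAdd_eq_one, nsmul_one] at h1
    exact (ZMod.natCast_eq_zero_iff j e).1 h1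
  have h3 : y⁻¹ ^ j ∈ N := by
    rw [← QuotientGroup.eq_one_iff, QuotientGroup.mk_pow, QuotientGroup.mk_inv]
    exact orderOf_dvd_iff_pow_eq_one.1 h2
  have h4 := N.mul_mem (Subgroup.mem_inf.1 hj).1 (N.inv_mem h3)
  simpa using h4

/-- The three cusp generators. -/
def cus (x y : F) : Fin 3 → F := ![x, y, (x * y)⁻¹]

/-- `φ` raises the cusp generators, up to the conjugators `f`, to a common power that is
congruent to `c` modulo `k`. -/
def Lam (x y : F) (φ : Monoid.End F) (f : Fin 3 → F) (k : ℕ) (c : ℤ) : Prop :=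
  ∀ (E : Type) [Group E] [Finite E] (ρ : F →* E), Cts ρ → ∃ j : ℤ, (k : ℤ) ∣ j - c ∧
    ∀ t, ρ (f t * φ (cus x y t) * (f t)⁻¹) = ρ (cus x y t) ^ j

variable {φ ψ : Monoid.End F} {f f' : Fin 3 → F} {k k' : ℕ} {c c' : ℤ}

theorem Lam.mono (h : Lam x y φ f k c) (hk : k' ∣ k) (hc : (k' : ℤ) ∣ c - c') :
    Lam x y φ f k' c' := fun E _ _ ρ hρ => by
  obtain ⟨j, h1, h2⟩ := h E ρ hρ
  refine ⟨j, ?_, h2⟩
  have := dvd_add ((Int.natCast_dvd_natCast.2 hk).trans h1) hc
  rwa [sub_add_sub_cancel] at this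

theorem Lam.one : Lam x y 1 1 k 1 := fun E _ _ ρ hρ => ⟨1, by simp, fun t => by simp⟩

theorem Lam.mul (hφ : Continuous φ) (h : Lam x y φ f k c) (h' : Lam x y ψ f' k c') :
    Lam x y (φ * ψ) (fun t => f t * φ (f' t)) k (c * c') := fun E _ _ ρ hρ => by
  obtain ⟨j, h1, h2⟩ := h E ρ hρ
  obtain ⟨j', h1', h2'⟩ := h' E (ρ.comp φ) (hρ.comp hφ)
  refine ⟨j * j', ?_, fun t => ?_⟩
  · have : j * j' - c * c' = (j - c) * j' + c * (j' - c') := by ring
    rw [this]
    exact dvd_add (h1.mul_right _) (h1'.mul_left _)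
  · have e : f t * φ (f' t) * (φ * ψ) (cus x y t) * (f t * φ (f' t))⁻¹ =
        f t * φ (f' t * ψ (cus x y t) * (f' t)⁻¹) * (f t)⁻¹ := by
      simp only [map_mul, map_inv, mul_inv_rev, mul_assoc]
      rfl
    have e2 : ρ (φ (f' t * ψ (cus x y t) * (f' t)⁻¹)) = ρ (φ (cus x y t)) ^ j' := h2' t
    rw [e, map_mul, map_mul, e2, zpow_mul, ← h2 t, map_mul, map_mul, map_inv, conj_zpow]

theorem ofAdd_zpow_eq {k : ℕ} {j c : ℤ}
    (h : (Multiplicative.ofAdd (1 : ZMod k)) ^ j = Multiplicative.ofAdd (1 : ZMod k) ^ c) :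
    (k : ℤ) ∣ j - c := by
  rw [← ofAdd_zsmul, ← ofAdd_zsmul, zsmul_one, zsmul_one] at h
  exact (ZMod.intCast_eq_intCast_iff_dvd_sub c j k).1 (Multiplicative.ofAdd.injective h).symm

theorem Lam.chi (h : Lam x y φ f k c) [NeZero k] {χ : F →* Multiplicative (ZMod k)} (hχ : Cts χ)
    (t : Fin 3) : χ (φ (cus x y t)) = χ (cus x y t) ^ c := by
  obtain ⟨j, h1, h2⟩ := h _ χ hχ
  have e := h2 t
  rw [map_mul, map_mul, mul_right_comm, ← map_mul, mul_inv_cancel, map_one, one_mul] at e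
  rw [e]
  refine zpow_eq_of_dvd (k := k) ?_ h1
  rw [← ofAdd_toAdd (χ _), ← ofAdd_nsmul, nsmul_eq_mul, ZMod.natCast_self, zero_mul, ofAdd_zero]

theorem Lam.unique (hF : FreePro x y) (hk : k ≠ 0) (h : Lam x y φ f k c)
    (h' : Lam x y φ f' k c') : (k : ℤ) ∣ c - c' := by
  have : NeZero k := ⟨hk⟩
  obtain ⟨χ, hχ, hx, hy⟩ := hF.ex (Multiplicative (ZMod k)) 1 (Multiplicative.ofAdd 1)
  have e := (h.chi hχ 1).symm.trans (h'.chi hχ 1)
  rw [show cus x y 1 = y from rfl, hy] at e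
  exact ofAdd_zpow_eq e

theorem Lam.ex (hF : FreePro x y) (h : Lam x y φ f k' c') (hk : k ≠ 0) :
    ∃ c, Lam x y φ f k c := by
  have : NeZero k := ⟨hk⟩
  obtain ⟨χ, hχ, hx, hy⟩ := hF.ex (Multiplicative (ZMod k)) 1 (Multiplicative.ofAdd 1)
  obtain ⟨c, -, hc⟩ := h _ χ hχ
  refine ⟨c, fun E _ _ ρ hρ => ?_⟩
  obtain ⟨j, -, hj⟩ := h _ _ (hρ.prod hχ)
  refine ⟨j, ?_, fun t => congrArg Prod.fst (hj t)⟩
  have e : χ _ = χ (cus x y 1) ^ j := congrArg Prod.snd (hj 1)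
  rw [hc 1, show cus x y 1 = y from rfl, hy] at e
  exact ofAdd_zpow_eq e.symm

theorem Lam.crt (hF : FreePro x y) (hk : k ≠ 0) (hk' : k' ≠ 0) (hc : k.Coprime k')
    (h : Lam x y φ f k c) (h' : Lam x y φ f k' c) : Lam x y φ f (k * k') c := by
  obtain ⟨c0, h0⟩ := h.ex hF (mul_ne_zero hk hk')
  refine h0.mono dvd_rfl ?_
  rw [Nat.cast_mul]
  exact (Nat.isCoprime_iff_coprime.2 hc).mul_dvd
    ((h0.mono (dvd_mul_right _ _) (by simp)).unique hF hk h)
    ((h0.mono (dvd_mul_left _ _) (by simp)).unique hF hk' h')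

theorem Lam.exact (hF : FreePro x y) (h : ∀ k ≠ 0, Lam x y φ f k c) (t : Fin 3) :
    f t * φ (cus x y t) * (f t)⁻¹ = cus x y t ^ c := by
  refine hF.sep' fun E _ _ ρ hρ => ?_
  obtain ⟨j, h1, h2⟩ := h (Nat.card E) Nat.card_pos.ne' E ρ hρ
  rw [h2, map_zpow]
  exact zpow_eq_of_dvd pow_card_eq_one' h1

/-- The class of endomorphisms under study. -/
structure Sp (x y : F) (φ : Monoid.End F) (f : Fin 3 → F) : Prop where
  cont : Continuous φ
  f0 : f 0 = 1
  mem : ∀ t, f t ∈ KK x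
  lam : Lam x y φ f 1 0

theorem Sp.mapK (h : Sp x y φ f) {w : F} (hw : w ∈ KK x) : φ w ∈ KK x := fun k _ χ hχ hx => by
  refine hw k (χ.comp φ) (hχ.comp h.cont) ?_
  obtain ⟨j, -, hj⟩ := h.lam _ χ hχ
  have e := hj 0
  rw [h.f0, one_mul, inv_one, mul_one, show cus x y 0 = x from rfl, hx, one_zpow] at e
  exact e

/-- The conjugators of the powers. -/
def co (φ : Monoid.End F) (f : Fin 3 → F) : ℕ → Fin 3 → F
  | 0 => 1
  | n + 1 => fun t => f t * φ (co φ f n t)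

theorem co_add (a b : ℕ) (t : Fin 3) : co φ f (a + b) t = co φ f a t * (φ ^ a) (co φ f b t) := by
  induction a with
  | zero => simp [co]
  | succ a ih =>
    rw [Nat.add_right_comm, co, co, pow_succ']
    simp only [ih, map_mul, mul_assoc]
    rfl

theorem co_one : co φ f 1 = f := by
  funext t
  simp [co]

theorem Lam.pow (hφ : Continuous φ) (h : Lam x y φ f k c) (n : ℕ) :
    Lam x y (φ ^ n) (co φ f n) k (c ^ n) := by
  induction n with
  | zero =>
    rw [pow_zero, pow_zero]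
    exact Lam.one
  | succ n ih =>
    rw [pow_succ', pow_succ']
    exact Lam.mul hφ h ih

theorem Sp.pow (h : Sp x y φ f) (n : ℕ) : Sp x y (φ ^ n) (co φ f n) := by
  refine ⟨?_, ?_, fun t => ?_, (h.lam.pow h.cont n).mono dvd_rfl (by simp)⟩
  · induction n with
    | zero => exact continuous_id
    | succ n ih =>
      rw [pow_succ']
      exact h.cont.comp ih
  · induction n with
    | zero => rfl
    | succ n ih => simp [co, h.f0, ih]
  · induction n with
    | zero => exact one_mem _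
    | succ n ih => exact mul_mem (h.mem t) (h.mapK ih)

theorem Lam.pow_dvd (hF : FreePro x y) (hφ : Continuous φ) (hk : k ≠ 0) (h : Lam x y φ f k c)
    {n : ℕ} (hn : φ ^ n = 1) : (k : ℤ) ∣ c ^ n - 1 := by
  have := h.pow hφ n
  rw [hn] at this
  exact this.unique hF hk Lam.one

theorem Sp.eq_one (hF : FreePro x y) (h : Sp x y 1 f) : f = 1 := by
  have e := Lam.exact hF (c := 1) fun k hk => by
    obtain ⟨c, hc⟩ := h.lam.ex hF hk
    exact hc.mono dvd_rfl (hc.unique hF hk Lam.one)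
  funext t
  have e1 := e t
  rw [zpow_one, mul_inv_eq_iff_eq_mul] at e1
  fin_cases t
  · exact h.f0
  · exact hF.centralK e1 (h.mem _)
  · exact hF.third.centralK e1 (h.mem _)

theorem Sp.co_eq_one (hF : FreePro x y) (h : Sp x y φ f) {n : ℕ} (hn : φ ^ n = 1) :
    co φ f n = 1 := by
  have := h.pow n
  rw [hn] at this
  exact this.eq_one hF

/-- `u * d ^ p` is the `p`-part of `u`. -/
def PP (p : ℕ) (u d : F) : Prop :=
  ∀ (E : Type) [Group E] [Finite E] (ρ : F →* E), Cts ρ → ∃ a r : ℕ,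
    ρ d = ρ u ^ a ∧ (ρ u ^ (1 + a * p)) ^ p ^ r = 1

theorem exists_pp {p : ℕ} (hp : p.Prime) (u : F) : ∃ d, PP p u d := by
  have ha : ∀ k : ℕ, ∃ a : ℕ, ∀ e, 0 < e → e ≤ k → e.Coprime p → e ∣ 1 + a * p := by
    intro k
    let M := ∏ e ∈ (Finset.Icc 1 k).filter (fun e => e.Coprime p), e
    have hM : M.Coprime p := Nat.Coprime.prod_left fun e he => (Finset.mem_filter.1 he).2
    have hM0 : 0 < M := Finset.prod_pos fun e he =>
      (Finset.mem_Icc.1 (Finset.mem_filter.1 he).1).1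
    have h1 : p ^ M.totient ≡ 1 [MOD M] := Nat.ModEq.pow_totient hM.symm
    obtain ⟨s, hs⟩ := Nat.exists_eq_succ_of_ne_zero (Nat.totient_pos.2 hM0).ne'
    refine ⟨(M - 1) * p ^ s, fun e he0 hek hep => ?_⟩
    refine (Finset.dvd_prod_of_mem (fun e => e) (s := (Finset.Icc 1 k).filter
      (fun e => e.Coprime p)) (Finset.mem_filter.2 ⟨Finset.mem_Icc.2 ⟨he0, hek⟩, hep⟩)).trans ?_
    change M ∣ _
    rw [mul_assoc, ← pow_succ, ← Nat.succ_eq_add_one, ← hs, ← Nat.modEq_zero_iff_dvd]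
    have h2 := (h1.mul_left (M - 1)).add_left 1
    rw [mul_one, show 1 + (M - 1) = M by omega] at h2
    exact h2.trans (Nat.modEq_zero_iff_dvd.2 dvd_rfl)
  choose a ha using ha
  obtain ⟨d, hd⟩ := exists_clusterPt_of_compactSpace (map (fun k => u ^ a k) atTop)
  refine ⟨d, fun E _ _ ρ hρ => ?_⟩
  obtain ⟨r, e, he, hre⟩ := Nat.exists_eq_pow_mul_and_not_dvd (Nat.card_pos (α := E)).ne' p
    hp.ne_one
  have he0 : 0 < e := Nat.pos_of_ne_zero fun h => he (by simp [h])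
  have h1 : ∀ᶠ g in 𝓝 d, ρ g = ρ d := by
    have : Tendsto (fun g => d⁻¹ * g) (𝓝 d) (𝓝 (d⁻¹ * d)) := Continuous.tendsto (by fun_prop) d
    rw [inv_mul_cancel] at this
    filter_upwards [this.eventually hρ] with g hg
    rw [map_mul, map_inv, inv_mul_eq_one] at hg
    exact hg.symm
  obtain ⟨k, hk1, hk2⟩ := ((MapClusterPt.frequently hd h1).and_eventually
    (eventually_ge_atTop e)).exists
  refine ⟨a k, r, by rw [← hk1, map_pow], ?_⟩
  obtain ⟨s, hs⟩ := ha k e he0 hk2 ((Nat.Prime.coprime_iff_not_dvd hp).2 he).symm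
  rw [hs, ← pow_mul, mul_right_comm, mul_comm e, ← hre, pow_mul, pow_card_eq_one', one_pow]

theorem PP.fix (hF : FreePro x y) {p : ℕ} {t : Fin 3} {d : F} (hd : PP p (cus x y t) d)
    (hφ : Continuous φ) (h : ∀ r, Lam x y φ f (p ^ r) c) :
    f t * φ (cus x y t * d ^ p) * (f t)⁻¹ = (cus x y t * d ^ p) ^ c := by
  refine hF.sep' fun E _ _ ρ hρ => ?_
  obtain ⟨a, r, h1, h2⟩ := hd _ _ (hρ.prod (hρ.comp hφ))
  have h3 : ρ d = ρ (cus x y t) ^ a := congrArg Prod.fst h1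
  have h4 : ρ (φ d) = ρ (φ (cus x y t)) ^ a := congrArg Prod.snd h1
  have h5 : (ρ (cus x y t) ^ (1 + a * p)) ^ p ^ r = 1 := congrArg Prod.fst h2
  obtain ⟨j, h6, h7⟩ := h r E ρ hρ
  have h8 := h7 t
  simp only [map_mul, map_inv, map_pow, map_zpow, h3, h4] at h8 ⊢
  rw [← pow_mul, ← pow_mul, ← pow_succ', ← pow_succ', ← conj_pow, h8, add_comm,
    ← zpow_eq_of_dvd h5 h6, ← zpow_natCast, ← zpow_natCast, ← zpow_mul, ← zpow_mul, mul_comm]

end Pool.Agent.P.MP_48d5fc_al
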