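import Pool.Agent.P.MP_48d5fc_al.Cusp

/-!
Special automorphisms of finite order are trivial.
-/

open Classical Filter Topology

set_option linter.unusedSectionVars false
set_option linter.unusedVariables false

noncomputable section

namespace Pool.Agent.P.MP_48d5fc_al

variable {F : Type} [Group F] [TopologicalSpace F] [IsTopologicalGroup F] [CompactSpace F]
  {x y : F} {p : ℕ} [hp : Fact p.Prime]

theorem level (hF : FreePro x y) {N : Subgroup F} [N.Normal] (hN : (N : Set F) ∈ 𝓝 1)
    (Φ : ZMod p → F →* F) (hΦ : ∀ i, ∀ g ∈ N, Φ i g ∈ N) (h0 : ∀ g, Φ 0 g = g)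
    (hadd : ∀ i j g, Φ (i + j) g = Φ i (Φ j g)) (hcont : ∀ i, Continuous (Φ i))
    (hx : ∀ i, Φ i x = x) (f g : ZMod p → F)
    (hf : ∀ i j, f (i + j) = f i * Φ i (f j)) (hy : ∀ i, f i * Φ i y = y * f i)
    (hg : ∀ i j, g (i + j) = g i * Φ i (g j))
    (hz : ∀ i, g i * Φ i (x * y)⁻¹ = (x * y)⁻¹ * g i) (i : ZMod p) : f i ∈ N := by
  have := finite_quot N hN
  have : Fintype (F ⧸ N) := Fintype.ofFinite _
  let a : Multiplicative (ZMod p) := Multiplicative.ofAdd 1
  have ha : a ≠ 1 := by
    rw [Ne, ofAdd_eq_one]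
    exact one_ne_zero
  obtain ⟨ρ, hρ1, hρx, hρy, hρ⟩ := hF.edge hN (D := Multiplicative (ZMod p))
    (fun q => if q = (x : F ⧸ N) then a else 1) fun q => if q = 1 then a⁻¹ else 1
  have hT : ∀ i, Tendsto (resN (Φ i) (hΦ i)) (comap Subtype.val (𝓝 (1 : F)))
      (comap Subtype.val (𝓝 (1 : F))) := fun i => by
    rw [tendsto_comap_iff]
    have := (hcont i).tendsto 1
    rw [map_one] at this
    exact this.comp tendsto_comap
  obtain ⟨h', hn, hk⟩ := key (Φ := fun i => resN (Φ i) (hΦ i)) (hF.proj hN)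
    (fun n => Subtype.ext (h0 n)) (fun i j n => Subtype.ext (hadd i j n)) hT (base ρ hρ)
    (base_ev ρ hρ hρ1)
  have hs : ∀ q : F ⧸ N, ((q.out : F) : F ⧸ N) = q := fun q => q.out_eq
  have cx := cusp_prod Φ hΦ h0 hadd (fun _ => 1) x (by simp) (by simp [hx]) ρ hρ h' hn hk _ hs
  have cy := cusp_prod Φ hΦ h0 hadd f y hf hy ρ hρ h' hn hk _ hs
  have cz := cusp_prod Φ hΦ h0 hadd g _ hg hz ρ hρ h' hn hk _ hs
  have tot : (∏ q, (kappa _ hs h' x).left q) * (∏ q, (kappa _ hs h' y).left q) *
      ∏ q, (kappa _ hs h' (x * y)⁻¹).left q = 1 := by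
    rw [← prod_left_mul, ← prod_left_mul, mul_inv_cancel, map_one]
    simp
  have hxy : (ρ (x * y)).left = 1 := by
    funext q
    rw [map_mul, RegularWreathProduct.mul_left, hρx, hρy, hρ]
    simp only [Pi.mul_apply, inv_mul_eq_one, Pi.one_apply, eq_comm (a := q)]
    split_ifs <;> simp
  have e3 : ∀ q, (ρ (x * y)⁻¹).left q = 1 := fun q => by
    rw [map_inv, RegularWreathProduct.inv_left, hxy]
    simp
  rw [cx, cy, cz, hρx, hρy, Finset.prod_ite_eq', Finset.prod_ite_eq', if_pos] at tot
  · simp only [e3, Finset.prod_const_one, mul_one] at tot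
    by_contra hcon
    rw [if_neg, mul_one] at tot
    · exact ha tot
    · intro h
      have h1 := (Finset.mem_filter.1 h).2 i
      rw [← QuotientGroup.mk_one, tau_mk, map_one, mul_one, QuotientGroup.mk_one,
        QuotientGroup.eq_one_iff] at h1
      exact hcon h1
  · simp only [Finset.mem_filter, Finset.mem_univ, true_and]
    intro j
    rw [tau_mk, hx, one_mul]

/-- Endomorphisms fixing `x` and conjugating `y` and `z` by elements of the derived group. -/
structure Special (x y : F) (φ : Monoid.End F) : Prop where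
  cont : Continuous φ
  fx : φ x = x
  fy : ∃ f ∈ (commutator F).topologicalClosure, f * φ y = y * f
  fz : ∃ g ∈ (commutator F).topologicalClosure, g * φ (x * y)⁻¹ = (x * y)⁻¹ * g

theorem map_mem_closure {φ : F →* F} (hφ : Continuous φ) {f : F}
    (hf : f ∈ (commutator F).topologicalClosure) : φ f ∈ (commutator F).topologicalClosure := by
  have : (commutator F).topologicalClosure ≤ (commutator F).topologicalClosure.comap φ := by
    refine Subgroup.topologicalClosure_minimal _ ?_
      ((commutator F).isClosed_topologicalClosure.preimage hφ)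
    refine le_trans ?_ (Subgroup.comap_mono (commutator F).le_topologicalClosure)
    rw [← Subgroup.map_le_iff_le_comap, commutator_def, Subgroup.map_commutator]
    exact Subgroup.commutator_mono le_top le_top
  exact this hf

theorem Special.one : Special x y 1 :=
  ⟨continuous_id, rfl, ⟨1, one_mem _, by simp⟩, ⟨1, one_mem _, by simp⟩⟩

theorem Special.mul {φ ψ : Monoid.End F} (h1 : Special x y φ) (h2 : Special x y ψ) :
    Special x y (φ * ψ) := by
  have aux : ∀ u : F, (∃ f ∈ (commutator F).topologicalClosure, f * φ u = u * f) →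
      (∃ f ∈ (commutator F).topologicalClosure, f * ψ u = u * f) →
      ∃ f ∈ (commutator F).topologicalClosure, f * (φ * ψ) u = u * f := by
    rintro u ⟨f, hf, e⟩ ⟨f', hf', e'⟩
    refine ⟨f * φ f', mul_mem hf (map_mem_closure h1.cont hf'), ?_⟩
    change f * φ f' * φ (ψ u) = _
    rw [mul_assoc, ← map_mul, e', map_mul, ← mul_assoc, e, mul_assoc]
  refine ⟨h1.cont.comp h2.cont, ?_, aux _ h1.fy h2.fy, aux _ h1.fz h2.fz⟩
  change φ (ψ x) = x
  rw [h2.fx, h1.fx]

theorem Special.pow {φ : Monoid.End F} (h : Special x y φ) (n : ℕ) : Special x y (φ ^ n) := by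
  induction n with
  | zero => exact Special.one
  | succ n ih => rw [pow_succ]; exact ih.mul h

theorem cocycle {u v : F} (hF : FreePro v u) (Φ : ZMod p → F →* F)
    (hadd : ∀ i j g, Φ (i + j) g = Φ i (Φ j g)) (hcont : ∀ i, Continuous (Φ i))
    (h : ∀ i, ∃ f ∈ (commutator F).topologicalClosure, f * Φ i u = u * f) :
    ∃ f : ZMod p → F, (∀ i j, f (i + j) = f i * Φ i (f j)) ∧ ∀ i, f i * Φ i u = u * f i := by
  choose f hf e using h
  refine ⟨f, fun i j => ?_, e⟩
  have e1 : f i * Φ i (f j) * Φ (i + j) u = u * (f i * Φ i (f j)) := by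
    rw [hadd, mul_assoc, ← map_mul, e, map_mul, ← mul_assoc, e, mul_assoc]
  have := hF.central (w := f (i + j) * (f i * Φ i (f j))⁻¹) (by
      rw [mul_assoc, ← mul_assoc u, ← e, mul_assoc, mul_right_inj, inv_mul_eq_iff_eq_mul,
        ← mul_assoc, e1, mul_inv_cancel_right])
    (mul_mem (hf _) (inv_mem (mul_mem (hf _) (map_mem_closure (hcont i) (hf _)))))
  exact mul_inv_eq_one.1 this

theorem FreePro.cont_ext [T2Space F] (hF : FreePro x y) {φ ψ : F →* F} (hφ : Continuous φ)
    (hψ : Continuous ψ) (hx : φ x = ψ x) (hy : φ y = ψ y) (g : F) : φ g = ψ g := by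
  rw [← mul_inv_eq_one]
  refine hF.sep _ fun N hNn hN => ?_
  have t : ∀ {χ : F →* F}, Continuous χ → ∀ᶠ g in 𝓝 1, (QuotientGroup.mk' N).comp χ g = 1 := by
    intro χ hχ
    have := hχ.tendsto 1
    rw [map_one] at this
    filter_upwards [this hN] with g hg
    exact (QuotientGroup.eq_one_iff _).2 hg
  have := hF.hom_ext _ _ (t hφ) (t hψ) (by simp [hx]) (by simp [hy]) g
  rw [← QuotientGroup.eq_one_iff, QuotientGroup.mk_mul, QuotientGroup.mk_inv, mul_inv_eq_one]
  exact this

theorem prime_case [T2Space F] (hF : FreePro x y) {φ : Monoid.End F} (h : Special x y φ)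
    (hφ : φ ^ p = 1) : φ = 1 := by
  let Φ : ZMod p → F →* F := fun i => (φ ^ i.val : Monoid.End F)
  have h0 : ∀ g, Φ 0 g = g := fun g => by
    simp only [Φ, ZMod.val_zero, pow_zero]
    rfl
  have hadd : ∀ i j g, Φ (i + j) g = Φ i (Φ j g) := fun i j g => by
    simp only [Φ]
    rw [ZMod.val_add, ← pow_eq_pow_mod _ hφ, pow_add]
    rfl
  have hcont : ∀ i, Continuous (Φ i) := fun i => (h.pow _).cont
  obtain ⟨f, hf, hy⟩ := cocycle hF Φ hadd hcont fun i => (h.pow _).fy
  obtain ⟨g, hg, hz⟩ := cocycle hF.third Φ hadd hcont fun i => (h.pow _).fz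
  have f1 : f 1 = 1 := hF.sep _ fun N0 hN0n hN0 => by
    let N : Subgroup F := ⨅ i, N0.comap (Φ i)
    have : N.Normal := Subgroup.normal_iInf_normal fun i => inferInstance
    have hN : (N : Set F) ∈ 𝓝 1 := by
      have : ∀ᶠ g in 𝓝 (1 : F), ∀ i, Φ i g ∈ N0 := eventually_all.2 fun i => by
        have := (hcont i).tendsto 1
        rw [map_one] at this
        exact this hN0
      filter_upwards [this] with g hg
      exact Subgroup.mem_iInf.2 hg
    have hΦ : ∀ i, ∀ g ∈ N, Φ i g ∈ N := fun i g hg => Subgroup.mem_iInf.2 fun j => by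
      rw [Subgroup.mem_comap, ← hadd]
      exact Subgroup.mem_iInf.1 hg _
    have := level hF hN Φ hΦ h0 hadd hcont (fun i => (h.pow _).fx) f g hf hy hg hz 1
    have h2 := Subgroup.mem_iInf.1 this 0
    rwa [Subgroup.mem_comap, h0] at h2
  have hy1 : φ y = y := by
    have := hy 1
    rw [f1, one_mul, mul_one] at this
    have e : Φ 1 = φ := by
      simp only [Φ]
      rw [ZMod.val_one, pow_one]
    rwa [e] at this
  exact MonoidHom.ext (hF.cont_ext (ψ := MonoidHom.id F) h.cont continuous_id h.fx hy1)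

theorem torsion_free [T2Space F] (hF : FreePro x y) {φ : Monoid.End F} (h : Special x y φ)
    (n : ℕ) (hn : 0 < n) (hφ : φ ^ n = 1) : φ = 1 := by
  induction n using Nat.strong_induction_on with
  | _ n ih =>
    by_cases h1 : n = 1
    · rwa [h1, pow_one] at hφ
    obtain ⟨p, hp, m, rfl⟩ := Nat.exists_prime_and_dvd h1
    have : Fact p.Prime := ⟨hp⟩
    have hm : 0 < m := Nat.pos_of_mul_pos_left hn
    refine ih m (by nlinarith [hp.one_lt]) hm (prime_case (p := p) hF (h.pow m) ?_)
    rw [← pow_mul, mul_comm, hφ]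

end Pool.Agent.P.MP_48d5fc_al
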