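import Pool.Agent.P.MP_48d5fc_al.Key

/-!
Free profinite groups of rank two: wreath products, projectivity of open subgroups,
centralizers of basis elements.
-/

open Classical Filter Topology

set_option linter.unusedSectionVars false
set_option linter.unusedVariables false

noncomputable section

namespace Pool.Agent.P.MP_48d5fc_al

variable {F : Type} [Group F] [TopologicalSpace F] [IsTopologicalGroup F] [CompactSpace F]

/-- The properties of a free profinite group on `x`, `y` that are used. -/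
structure FreePro (x y : F) : Prop where
  ex : ∀ (E : Type) [Group E] [Finite E] (a b : E),
    ∃ ρ : F →* E, (∀ᶠ g in 𝓝 1, ρ g = 1) ∧ ρ x = a ∧ ρ y = b
  gen : ∀ H : Subgroup F, (H : Set F) ∈ 𝓝 1 → x ∈ H → y ∈ H → H = ⊤
  sep : ∀ g : F, (∀ N : Subgroup F, N.Normal → (N : Set F) ∈ 𝓝 1 → g ∈ N) → g = 1

variable {x y : F}

theorem FreePro.hom_ext (hF : FreePro x y) {E : Type} [Group E] (ρ ρ' : F →* E)
    (h : ∀ᶠ g in 𝓝 1, ρ g = 1) (h' : ∀ᶠ g in 𝓝 1, ρ' g = 1) (hx : ρ x = ρ' x)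
    (hy : ρ y = ρ' y) (g : F) : ρ g = ρ' g := by
  have : ρ.eqLocus ρ' = ⊤ := hF.gen _ (by
    filter_upwards [h, h'] with g h1 h2
    exact h1.trans h2.symm) hx hy
  have hg : g ∈ ρ.eqLocus ρ' := this ▸ Subgroup.mem_top g
  exact hg

theorem FreePro.third (hF : FreePro x y) : FreePro x (x * y)⁻¹ where
  ex E _ _ a b := by
    obtain ⟨ρ, h, hx, hy⟩ := hF.ex E a (a⁻¹ * b⁻¹)
    exact ⟨ρ, h, hx, by simp [hx, hy]⟩
  gen H h hx hz := hF.gen H h hx (by simpa using H.mul_mem (H.inv_mem hx) (H.inv_mem hz))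
  sep := hF.sep

theorem finite_quot (N : Subgroup F) (hN : (N : Set F) ∈ 𝓝 1) : Finite (F ⧸ N) :=
  N.quotient_finite_of_isOpen (N.isOpen_of_mem_nhds hN)

variable {N : Subgroup F} [N.Normal]

/-- The wreath-product cocycle of a homomorphism on a normal subgroup. -/
def kappa {R : Type} [Group R] (s : F ⧸ N → F) (hs : ∀ q, (s q : F ⧸ N) = q) (ψ : N →* R) :
    F →* R ≀ᵣ (F ⧸ N) :=
  MonoidHom.mk' (fun g => ⟨fun q => ψ ⟨(s q)⁻¹ * g * s ((g : F ⧸ N)⁻¹ * q), by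
      rw [← QuotientGroup.eq_one_iff]
      simp [hs]⟩, (g : F ⧸ N)⟩) fun g g' => by
    ext q
    · simp only [RegularWreathProduct.mul_left, Pi.mul_apply]
      rw [← map_mul]
      congr 1
      ext
      simp [mul_assoc]
    · simp

theorem kappa_left {R : Type} [Group R] (s : F ⧸ N → F) (hs : ∀ q, (s q : F ⧸ N) = q)
    (ψ : N →* R) (g : F) (q : F ⧸ N) (n : N) (h : (s q)⁻¹ * g * s ((g : F ⧸ N)⁻¹ * q) = n) :
    (kappa s hs ψ g).left q = ψ n := by
  change ψ _ = ψ n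
  congr 1
  exact Subtype.ext h

theorem kappa_right {R : Type} [Group R] (s : F ⧸ N → F) (hs : ∀ q, (s q : F ⧸ N) = q)
    (ψ : N →* R) (g : F) : (kappa s hs ψ g).right = (g : F ⧸ N) := rfl

/-- Evaluation at the base point. -/
def base {D : Type} [Group D] (ρ : F →* D ≀ᵣ (F ⧸ N)) (hρ : ∀ g, (ρ g).right = (g : F ⧸ N)) :
    N →* D :=
  MonoidHom.mk' (fun n => (ρ n).left 1) fun a b => by
    have : ((a : F) : F ⧸ N) = 1 := (QuotientGroup.eq_one_iff _).2 a.2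
    simp [hρ, this]

theorem base_ev {D : Type} [Group D] (ρ : F →* D ≀ᵣ (F ⧸ N)) (hρ : ∀ g, (ρ g).right = (g : F ⧸ N))
    (h : ∀ᶠ g in 𝓝 1, ρ g = 1) :
    ∀ᶠ n : N in comap Subtype.val (𝓝 (1 : F)), base ρ hρ n = 1 := by
  filter_upwards [tendsto_comap.eventually h] with n hn
  change (ρ n).left 1 = 1
  rw [hn]
  rfl

theorem FreePro.edge (hF : FreePro x y) (hN : (N : Set F) ∈ 𝓝 1) {D : Type} [Group D] [Finite D]
    (wx wy : F ⧸ N → D) : ∃ ρ : F →* D ≀ᵣ (F ⧸ N), (∀ᶠ g in 𝓝 1, ρ g = 1) ∧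
      (ρ x).left = wx ∧ (ρ y).left = wy ∧ ∀ g, (ρ g).right = (g : F ⧸ N) := by
  have := finite_quot N hN
  obtain ⟨ρ, h, hx, hy⟩ := hF.ex (D ≀ᵣ (F ⧸ N)) ⟨wx, x⟩ ⟨wy, y⟩
  refine ⟨ρ, h, by rw [hx], by rw [hy], ?_⟩
  refine hF.hom_ext (RegularWreathProduct.rightHom.comp ρ) (QuotientGroup.mk' N) ?_ ?_ ?_ ?_
  · filter_upwards [h] with g hg
    simp [hg]
  · filter_upwards [hN] with g hg
    exact (QuotientGroup.eq_one_iff _).2 hg
  · simp [hx]
  · simp [hy]

theorem FreePro.proj (hF : FreePro x y) (hN : (N : Set F) ∈ 𝓝 1) :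
    Proj N (comap Subtype.val (𝓝 (1 : F))) := by
  intro E R _ _ _ π ψ hψ hr
  have := finite_quot N hN
  let s : F ⧸ N → F := fun q => if q = 1 then 1 else q.out
  have hs : ∀ q, (s q : F ⧸ N) = q := fun q => by
    simp only [s]
    split_ifs with h
    · simp [h]
    · simp
  have hs1 : s 1 = 1 := if_pos rfl
  let κ := kappa s hs ψ.toHomUnits
  let πw : E ≀ᵣ (F ⧸ N) →* Rˣ ≀ᵣ (F ⧸ N) :=
    MonoidHom.mk' (fun a => ⟨fun q => π.toHomUnits (a.left q), a.right⟩) fun a b => by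
      ext q <;> simp
  have hl : ∀ g q, ∃ e, π.toHomUnits e = (κ g).left q := fun g q => by
    obtain ⟨e, he⟩ := hr ⟨(s q)⁻¹ * g * s ((g : F ⧸ N)⁻¹ * q), by
      rw [← QuotientGroup.eq_one_iff]
      simp [hs]⟩
    exact ⟨e, Units.ext he⟩
  choose l hl using hl
  obtain ⟨ρ, h, hx, hy, hρ⟩ := hF.edge hN (l x) (l y)
  have hκ : ∀ᶠ g in 𝓝 (1 : F), κ g = 1 := by
    obtain ⟨U, hU, hU'⟩ := mem_comap.1 hψ
    have h2 : ∀ q, ∀ᶠ g in 𝓝 (1 : F), (s q)⁻¹ * g * s q ∈ U := fun q => by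
      have : Tendsto (fun g => (s q)⁻¹ * g * s q) (𝓝 1) (𝓝 ((s q)⁻¹ * 1 * s q)) :=
        Continuous.tendsto (by fun_prop) 1
      rw [mul_one, inv_mul_cancel] at this
      exact this hU
    filter_upwards [hN, eventually_all.2 h2] with g hg hg'
    have hg1 : (g : F ⧸ N) = 1 := (QuotientGroup.eq_one_iff _).2 hg
    ext q
    · have hn : (s q)⁻¹ * g * s q ∈ N := by
        simpa using (inferInstance : N.Normal).conj_mem g hg (s q)⁻¹
      rw [kappa_left s hs _ g q ⟨_, hn⟩ (by simp [hg1])]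
      exact hU' (hg' q)
    · exact hg1
  have hcomp := hF.hom_ext (πw.comp ρ) κ (by
      filter_upwards [h] with g hg
      simp [hg]) hκ (by
      ext q
      · simp [πw, hx, hl]
      · simp [πw, hρ, κ, kappa_right]) (by
      ext q
      · simp [πw, hy, hl]
      · simp [πw, hρ, κ, kappa_right])
  refine ⟨base ρ hρ, base_ev ρ hρ h, fun n => ?_⟩
  have h1 : ((n : F) : F ⧸ N) = 1 := (QuotientGroup.eq_one_iff _).2 n.2
  have h2 := congrArg (fun a => ((RegularWreathProduct.left a 1 : Rˣ) : R)) (hcomp n)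
  simp only [κ] at h2
  rw [kappa_left s hs _ n 1 n (by simp [h1, hs1])] at h2
  exact h2

theorem left_conj {D : Type} [CommGroup D] (ρ : F →* D ≀ᵣ (F ⧸ N))
    (hρ : ∀ g, (ρ g).right = (g : F ⧸ N)) (n g : F) (hn : n ∈ N) :
    (ρ (g⁻¹ * n * g)).left 1 = (ρ n).left g := by
  have h1 : (n : F ⧸ N) = 1 := (QuotientGroup.eq_one_iff _).2 hn
  simp [hρ, h1, mul_right_comm]

theorem left_pow {D : Type} [CommGroup D] (ρ : F →* D ≀ᵣ (F ⧸ N))
    (hρ : ∀ g, (ρ g).right = (g : F ⧸ N)) (u : F) (e : ℕ) (q : F ⧸ N) :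
    (ρ (u ^ e)).left q = ∏ i ∈ Finset.range e, (ρ u).left (((u : F ⧸ N)⁻¹) ^ i * q) := by
  induction e with
  | zero => simp
  | succ e ih =>
    rw [pow_succ, map_mul, Finset.prod_range_succ, ← ih, RegularWreathProduct.mul_left, hρ]
    simp

theorem FreePro.central_mem (hF : FreePro x y) (hN : (N : Set F) ∈ 𝓝 1) {w : F}
    (hw : w * y = y * w) : ∃ j : ℕ, (w : F ⧸ N) = ((y : F ⧸ N)⁻¹) ^ j := by
  have := finite_quot N hN
  by_contra hcon
  push Not at hcon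
  set v : F ⧸ N := (y : F ⧸ N)⁻¹ with hv
  set e := orderOf v with he
  have he0 : 0 < e := orderOf_pos v
  obtain ⟨ρ, -, -, hy, hρ⟩ := hF.edge hN (D := Multiplicative (ZMod 2)) 1
    fun q => if q = 1 then Multiplicative.ofAdd 1 else 1
  have hye : y ^ e ∈ N := by
    rw [← QuotientGroup.eq_one_iff, QuotientGroup.mk_pow, ← inv_eq_one, ← inv_pow]
    exact pow_orderOf_eq_one v
  have h1 := left_conj ρ hρ (y ^ e) w⁻¹ hye
  have h2 : w⁻¹⁻¹ * y ^ e * w⁻¹ = y ^ e := by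
    rw [inv_inv, (Commute.pow_right hw e).eq, mul_inv_cancel_right]
  rw [h2, left_pow ρ hρ, left_pow ρ hρ, hy, Finset.prod_eq_single 0, Finset.prod_eq_one] at h1
  · simp at h1
  · intro i _
    apply if_neg
    intro h
    apply hcon i
    rw [QuotientGroup.mk_inv, mul_inv_eq_one] at h
    exact h.symm
  · intro i hi hi0
    apply if_neg
    rw [mul_one]
    exact pow_ne_one_of_lt_orderOf hi0 (Finset.mem_range.1 hi)
  · intro h
    exact absurd (Finset.mem_range.2 he0) h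

theorem FreePro.central (hF : FreePro x y) {w : F} (hw : w * y = y * w)
    (hc : w ∈ (commutator F).topologicalClosure) : w = 1 := by
  refine hF.sep w fun N hNn hN => ?_
  have := finite_quot N hN
  set e := orderOf ((y : F ⧸ N)⁻¹) with he
  have : NeZero e := ⟨(orderOf_pos _).ne'⟩
  obtain ⟨χ, hχ, -, hy⟩ := hF.ex (Multiplicative (ZMod e)) 1 (Multiplicative.ofAdd 1)
  have hker : (χ.ker : Set F) ∈ 𝓝 1 := hχ
  have hw1 : w ∈ χ.ker :=
    Subgroup.topologicalClosure_minimal _ (Abelianization.commutator_subset_ker χ)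
      (χ.ker.isClosed_of_isOpen (χ.ker.isOpen_of_mem_nhds hker)) hc
  obtain ⟨j, hj⟩ := hF.central_mem (N := N ⊓ χ.ker) (inter_mem hN hker) hw
  rw [← QuotientGroup.mk_inv, ← QuotientGroup.mk_pow, QuotientGroup.eq] at hj
  have h1 : χ (y⁻¹ ^ j) = 1 := by
    have := (Subgroup.mem_inf.1 hj).2
    rw [MonoidHom.mem_ker, map_mul, map_inv, MonoidHom.mem_ker.1 hw1] at this
    simpa using this
  have h2 : e ∣ j := by
    rw [map_pow, map_inv, hy, inv_pow, inv_eq_one, ← ofAdd_nsmul, ofAdd_eq_one, nsmul_one] at h1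
    exact (ZMod.natCast_eq_zero_iff j e).1 h1
  have h3 : y⁻¹ ^ j ∈ N := by
    rw [← QuotientGroup.eq_one_iff, QuotientGroup.mk_pow, QuotientGroup.mk_inv]
    exact orderOf_dvd_iff_pow_eq_one.1 h2
  have h4 := N.mul_mem (Subgroup.mem_inf.1 hj).1 (N.inv_mem h3)
  simpa using h4

end Pool.Agent.P.MP_48d5fc_al
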