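import Pool.Agent.P.MP_48d5fc_al.Lam

/-!
An automorphism of prime order `p` whose exponent has trivial `p`-component is trivial.
-/

open Classical Filter Topology

set_option linter.unusedSectionVars false
set_option linter.unusedVariables false

noncomputable section

namespace Pool.Agent.P.MP_48d5fc_al

variable {F : Type} [Group F] [TopologicalSpace F] [IsTopologicalGroup F] [CompactSpace F]
  {x y : F} {p : ℕ} [hp : Fact p.Prime] {φ : Monoid.End F} {f : Fin 3 → F}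

section
variable {N : Subgroup F} [N.Normal] [Fintype (F ⧸ N)]

/-- The transfer attached to a wreath-product homomorphism. -/
def tr {D : Type} [CommGroup D] (ρ : F →* D ≀ᵣ (F ⧸ N)) : F →* D :=
  MonoidHom.mk' (fun u => ∏ q, (ρ u).left q) (prod_left_mul ρ)

theorem tr_apply {D : Type} [CommGroup D] (ρ : F →* D ≀ᵣ (F ⧸ N)) (u : F) :
    tr ρ u = ∏ q, (ρ u).left q := rfl

theorem pow_p (a : Multiplicative (ZMod p)) : a ^ p = 1 := by
  rw [← ofAdd_toAdd a, ← ofAdd_nsmul, nsmul_eq_mul, ZMod.natCast_self, zero_mul, ofAdd_zero]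

theorem hom_pp (T : F →* Multiplicative (ZMod p)) (u d : F) : T (u * d ^ p) = T u := by
  rw [map_mul, map_pow, pow_p, mul_one]

theorem hom_cus {D : Type} [CommGroup D] (T : F →* D) :
    T (cus x y 0) * T (cus x y 1) * T (cus x y 2) = 1 := by
  rw [← map_mul, ← map_mul]
  exact (congrArg T (mul_inv_cancel _)).trans (map_one T)

theorem left_const {D : Type} [CommGroup D] (ρ : F →* D ≀ᵣ (F ⧸ N))
    (hρ : ∀ g, (ρ g).right = (g : F ⧸ N)) {u n : F} (hn : n ∈ N)
    (hu : ∀ q : F ⧸ N, ∃ i : ℕ, q = (u : F ⧸ N)⁻¹ ^ i) (hc : Commute (ρ n) (ρ u)) (q : F ⧸ N) :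
    (ρ n).left q = (ρ n).left 1 := by
  have h1 : (n : F ⧸ N) = 1 := (QuotientGroup.eq_one_iff _).2 hn
  have h2 : ∀ q, (ρ n).left ((u : F ⧸ N)⁻¹ * q) = (ρ n).left q := fun q => by
    have := congrArg (fun a => RegularWreathProduct.left a q) hc.eq
    simp only [RegularWreathProduct.mul_left, Pi.mul_apply, hρ, h1, inv_one, one_mul] at this
    rw [mul_comm] at this
    exact (mul_left_cancel this).symm
  obtain ⟨i, rfl⟩ := hu q
  induction i with
  | zero => rw [pow_zero]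
  | succ i ih => rw [pow_succ', h2, ih]

theorem base_pow (ρ : F →* Multiplicative (ZMod p) ≀ᵣ (F ⧸ N))
    (hρ : ∀ g, (ρ g).right = (g : F ⧸ N)) {n : F} (hn : n ∈ N) : ρ n ^ p = 1 := by
  have h1 : (n : F ⧸ N) = 1 := (QuotientGroup.eq_one_iff _).2 hn
  rw [← map_pow]
  ext q
  · rw [left_pow ρ hρ]
    simp [h1, pow_p]
  · rw [hρ, QuotientGroup.mk_pow, h1, one_pow]
    rfl

end

theorem PP.eq {u d : F} (hd : PP p u d) {E : Type} [Group E] [Finite E] {ρ : F →* E}
    (hρ : Cts ρ) : ∃ a r : ℕ, ρ (u * d ^ p) = ρ u ^ (1 + a * p) ∧ ρ (u * d ^ p) ^ p ^ r = 1 := by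
  obtain ⟨a, r, h1, h2⟩ := hd _ ρ hρ
  have : ρ (u * d ^ p) = ρ u ^ (1 + a * p) := by
    rw [map_mul, map_pow, h1, ← pow_mul, ← pow_succ', add_comm]
  exact ⟨a, r, this, by rw [this, h2]⟩

section
variable {m : ℕ} [NeZero m] {χ : F →* Multiplicative (ZMod m)}

theorem PP.mem {u d : F} (hd : PP p u d) (hχ : Cts χ) (hm : m.Coprime p) : u * d ^ p ∈ χ.ker := by
  obtain ⟨a, r, -, h2⟩ := hd.eq hχ
  have h3 : χ (u * d ^ p) ^ m = 1 := by
    rw [← ofAdd_toAdd (χ _), ← ofAdd_nsmul, nsmul_eq_mul, ZMod.natCast_self, zero_mul, ofAdd_zero]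
  have := pow_gcd_eq_one.2 ⟨h3, h2⟩
  rwa [hm.pow_right r, pow_one] at this

theorem gen_y (hy : χ y = Multiplicative.ofAdd 1) {u : F} (hu : χ u = (χ y)⁻¹)
    (q : F ⧸ χ.ker) : ∃ i : ℕ, q = (u : F ⧸ χ.ker)⁻¹ ^ i := by
  induction q using QuotientGroup.induction_on with
  | H g =>
    refine ⟨(χ g).toAdd.val, ?_⟩
    rw [← QuotientGroup.mk_inv, ← QuotientGroup.mk_pow, QuotientGroup.eq, MonoidHom.mem_ker,
      map_mul, map_inv, map_pow, map_inv, hu, inv_inv, hy, ← ofAdd_nsmul, nsmul_one,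
      ZMod.natCast_zmod_val, ofAdd_toAdd, inv_mul_cancel]

theorem card_ker [Fintype (F ⧸ χ.ker)] (hy : χ y = Multiplicative.ofAdd 1) :
    Fintype.card (F ⧸ χ.ker) = m := by
  rw [Fintype.card_congr (QuotientGroup.quotientKerEquivOfSurjective χ fun a =>
    ⟨y ^ a.toAdd.val, by
      rw [map_pow, hy, ← ofAdd_nsmul, nsmul_one, ZMod.natCast_zmod_val, ofAdd_toAdd]⟩).toEquiv,
    Fintype.card_multiplicative, ZMod.card]

theorem comm_const [Fintype (F ⧸ χ.ker)] (hx : χ x = 1) (hy : χ y = Multiplicative.ofAdd 1)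
    {D : Type} [CommGroup D] (ρ : F →* D ≀ᵣ (F ⧸ χ.ker))
    (hρ : ∀ g, (ρ g).right = (g : F ⧸ χ.ker)) {t : Fin 3} (ht : t ≠ 0) {n : F} (hn : n ∈ χ.ker)
    (hc : Commute (ρ n) (ρ (cus x y t))) (q : F ⧸ χ.ker) : (ρ n).left q = (ρ n).left 1 := by
  fin_cases t
  · exact absurd rfl ht
  · refine left_const ρ hρ hn (u := y⁻¹) (gen_y hy (map_inv _ _)) ?_ q
    rw [map_inv]
    exact hc.inv_right
  · exact left_const ρ hρ hn (u := (x * y)⁻¹) (gen_y hy (by simp [hx])) hc q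

theorem PP.left [Fintype (F ⧸ χ.ker)] (hχ : Cts χ) (hx : χ x = 1)
    (hy : χ y = Multiplicative.ofAdd 1) (hm : m.Coprime p)
    {ρ : F →* Multiplicative (ZMod p) ≀ᵣ (F ⧸ χ.ker)} (hρ1 : Cts ρ)
    (hρ : ∀ g, (ρ g).right = (g : F ⧸ χ.ker)) {t : Fin 3} (ht : t ≠ 0) {d : F}
    (hd : PP p (cus x y t) d) (q : F ⧸ χ.ker) :
    (ρ (cus x y t * d ^ p)).left q ^ m = tr ρ (cus x y t) := by
  obtain ⟨a, r, h1, -⟩ := hd.eq hρ1
  have hc := comm_const hx hy ρ hρ ht (hd.mem hχ hm) (by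
    rw [h1]
    exact (Commute.refl _).pow_left _)
  rw [← hom_pp (tr ρ) _ d, tr_apply, Finset.prod_congr rfl fun q _ => hc q, hc q,
    Finset.prod_const, Finset.card_univ, card_ker hy]

theorem Lam.chi_all {c : ℤ} (hF : FreePro x y) (h : Sp x y φ f) (hl : Lam x y φ f m c)
    (hχ : Cts χ) (hx : χ x = 1) (g : F) : χ (φ g) = χ g ^ c :=
  hF.hom_ext (χ.comp φ) ((zpowGroupHom c).comp χ) (hχ.comp h.cont) (by
    filter_upwards [hχ] with g hg
    simp [hg]) (hl.chi hχ 0) (hl.chi hχ 1) g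

end

theorem Sp.co_mod (hF : FreePro x y) (h : Sp x y φ f) {n : ℕ} (hn : φ ^ n = 1) (a : ℕ)
    (t : Fin 3) : co φ f (a % n) t = co φ f a t := by
  have e : φ ^ (n * (a / n)) = 1 := by rw [pow_mul, hn, one_pow]
  conv_rhs => rw [← Nat.div_add_mod a n, co_add, h.co_eq_one hF e, e]
  simp

theorem cyc (hF : FreePro x y) (h : Sp x y φ f) (hφ : φ ^ p = 1) :
    (∀ g, (φ ^ (0 : ZMod p).val) g = g) ∧
    (∀ (i j : ZMod p) g, (φ ^ (i + j).val) g = (φ ^ i.val) ((φ ^ j.val) g)) ∧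
    ∀ t (i j : ZMod p), co φ f (i + j).val t = co φ f i.val t * (φ ^ i.val) (co φ f j.val t) := by
  refine ⟨fun g => by simp, fun i j g => ?_, fun t i j => ?_⟩
  · rw [ZMod.val_add, ← pow_eq_pow_mod _ hφ, pow_add]
    rfl
  · rw [ZMod.val_add, h.co_mod hF hφ, co_add]

theorem lamB (hF : FreePro x y) (h : Sp x y φ f) (hφ : φ ^ p = 1)
    (hl : ∀ r, Lam x y φ f (p ^ r) 1) {m : ℕ} (hm0 : m ≠ 0) (hm : m.Coprime p) :
    Lam x y φ f m 1 := by
  have : NeZero m := ⟨hm0⟩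
  obtain ⟨c, hc⟩ := h.lam.ex hF hm0
  refine hc.mono dvd_rfl ?_
  by_contra hcon
  obtain ⟨χ, hχ, hx, hy⟩ := hF.ex (Multiplicative (ZMod m)) 1 (Multiplicative.ofAdd 1)
  have hN : (χ.ker : Set F) ∈ 𝓝 1 := hχ
  have := finite_quot _ hN
  have : Fintype (F ⧸ χ.ker) := Fintype.ofFinite _
  obtain ⟨h0, hadd, hf⟩ := cyc hF h hφ
  let Φ : ZMod p → F →* F := fun i => (φ ^ i.val : Monoid.End F)
  have hΦ : ∀ i, ∀ g ∈ χ.ker, Φ i g ∈ χ.ker := fun i g hg => by
    have := (hc.pow h.cont i.val).chi_all hF (h.pow _) hχ hx g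
    rw [MonoidHom.mem_ker.1 hg, one_zpow] at this
    exact this
  choose d hd using fun t => exists_pp hp.out (cus x y t)
  have hu : ∀ t i, co φ f i.val t * Φ i (cus x y t * d t ^ p) =
      cus x y t * d t ^ p * co φ f i.val t := fun t i => by
    have := (hd t).fix hF (h.pow i.val).cont fun r => (hl r).pow h.cont i.val
    rw [one_pow, zpow_one, mul_inv_eq_iff_eq_mul] at this
    exact this
  have hτ : tau Φ hΦ (fun i => co φ f i.val 0) 1 (y : F ⧸ χ.ker) ≠ y := by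
    intro e
    rw [tau_mk, QuotientGroup.eq, MonoidHom.mem_ker, map_mul, map_inv, inv_mul_eq_one,
      (h.pow _).f0, one_mul] at e
    have e1 : Φ 1 = φ := by
      simp only [Φ]
      rw [ZMod.val_one, pow_one]
    rw [e1] at e
    have e2 : χ (φ y) = χ y := e
    rw [hc.chi_all hF h hχ hx, hy] at e2
    exact hcon (ofAdd_zpow_eq (e2.trans (zpow_one _).symm))
  have hτ1 : ∀ i, tau Φ hΦ (fun i => co φ f i.val 0) i 1 = 1 := fun i => by
    rw [← QuotientGroup.mk_one, tau_mk, (h.pow _).f0, map_one, one_mul]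
  let a : Multiplicative (ZMod p) := Multiplicative.ofAdd 1
  have ha : a ≠ 1 := by
    rw [Ne, ofAdd_eq_one]
    exact one_ne_zero
  obtain ⟨ρ, hρ1, hρx, hρy, hρ⟩ := hF.edge hN (D := Multiplicative (ZMod p))
    (fun q => (if q = 1 then a else 1) * if q = (y : F ⧸ χ.ker) then a⁻¹ else 1) 1
  have hT : ∀ i, Tendsto (resN (Φ i) (hΦ i)) (comap Subtype.val (𝓝 (1 : F)))
      (comap Subtype.val (𝓝 (1 : F))) := fun i => by
    rw [tendsto_comap_iff]
    have := (h.pow i.val).cont.tendsto 1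
    rw [map_one] at this
    exact this.comp tendsto_comap
  obtain ⟨h', hn, hk⟩ := key (Φ := fun i => resN (Φ i) (hΦ i)) (hF.proj hN)
    (fun n => Subtype.ext (h0 n)) (fun i j n => Subtype.ext (hadd i j n)) hT (base ρ hρ)
    (base_ev ρ hρ hρ1)
  have hs : ∀ q : F ⧸ χ.ker, ((q.out : F) : F ⧸ χ.ker) = q := fun q => q.out_eq
  have cp := fun t => (hom_pp (tr (kappa _ hs h')) (cus x y t) (d t)).symm.trans
    (cusp_prod Φ hΦ h0 hadd (fun i => co φ f i.val t) _ (hf t) (hu t) ρ hρ h' hn hk _ hs)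
  have tx : tr ρ (cus x y 0) = 1 := by
    rw [tr_apply, show cus x y 0 = x from rfl, hρx, Finset.prod_mul_distrib]
    simp
  have ty : tr ρ (cus x y 1) = 1 := by
    rw [tr_apply, show cus x y 1 = y from rfl, hρy]
    simp
  have tz : tr ρ (cus x y 2) = 1 := by simpa [tx, ty] using hom_cus (x := x) (y := y) (tr ρ)
  have e1 : ∀ t, t ≠ 0 → tr ρ (cus x y t) = 1 → tr (kappa _ hs h') (cus x y t) = 1 := by
    intro t ht e
    rw [cp]
    refine Finset.prod_eq_one fun q _ => ?_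
    have := pow_gcd_eq_one.2 ⟨((hd t).left hχ hx hy hm hρ1 hρ ht q).trans e, pow_p _⟩
    rwa [hm, pow_one] at this
  have tot := hom_cus (x := x) (y := y) (tr (kappa _ hs h'))
  rw [e1 1 (by decide) ty, e1 2 (by decide) tz, mul_one, mul_one, cp] at tot
  obtain ⟨b, r, e2, -⟩ := (hd 0).eq hρ1
  rw [pow_add, pow_one, mul_comm b, pow_mul, base_pow ρ hρ (n := cus x y 0) hx, one_pow,
    mul_one] at e2
  rw [e2, show cus x y 0 = x from rfl, hρx, Finset.prod_mul_distrib, Finset.prod_ite_eq',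
    Finset.prod_ite_eq'] at tot
  simp only [Finset.mem_filter, Finset.mem_univ, true_and] at tot
  rw [if_pos hτ1, if_neg fun e => hτ (e 1), mul_one] at tot
  exact ha tot

theorem Lam.of_prime_pow (hF : FreePro x y) (h : Sp x y φ f) {c : ℤ}
    (hl : ∀ q r : ℕ, q.Prime → Lam x y φ f (q ^ r) c) {k : ℕ} (hk : k ≠ 0) : Lam x y φ f k c := by
  induction k using Nat.recOnPosPrimePosCoprime with
  | prime_pow q r hq _ => exact hl q r hq
  | zero => exact absurd rfl hk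
  | one => exact h.lam.mono dvd_rfl (by simp)
  | coprime a b ha hb hab iha ihb =>
    exact Lam.crt hF (by omega) (by omega) hab (iha (by omega)) (ihb (by omega))

theorem thB [T2Space F] (hF : FreePro x y) (h : Sp x y φ f) (hφ : φ ^ p = 1)
    (hl : ∀ r, Lam x y φ f (p ^ r) 1) : φ = 1 := by
  have hall : ∀ k ≠ 0, Lam x y φ f k 1 := fun k hk => Lam.of_prime_pow hF h (fun q r hq => by
    by_cases e : q = p
    · exact e ▸ hl r
    · exact lamB hF h hφ hl (pow_ne_zero _ hq.ne_zero)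
        (((Nat.coprime_primes hq hp.out).2 e).pow_left r)) hk
  obtain ⟨h0, hadd, hf⟩ := cyc hF h hφ
  let Φ : ZMod p → F →* F := fun i => (φ ^ i.val : Monoid.End F)
  have hcont : ∀ i, Continuous (Φ i) := fun i => (h.pow _).cont
  have hu : ∀ t i, co φ f i.val t * Φ i (cus x y t) = cus x y t * co φ f i.val t := fun t i => by
    have := Lam.exact hF (fun k hk => (hall k hk).pow h.cont i.val) t
    rw [one_pow, zpow_one, mul_inv_eq_iff_eq_mul] at this
    exact this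
  have hx : ∀ i, Φ i x = x := fun i => by
    have := hu 0 i
    rwa [(h.pow _).f0, one_mul, mul_one] at this
  have f1 : co φ f (1 : ZMod p).val 1 = 1 := hF.sep _ fun N0 hN0n hN0 => by
    let N : Subgroup F := ⨅ i, N0.comap (Φ i)
    have : N.Normal := Subgroup.normal_iInf_normal fun i => inferInstance
    have hN : (N : Set F) ∈ 𝓝 1 := by
      have : ∀ᶠ g in 𝓝 (1 : F), ∀ i, Φ i g ∈ N0 := eventually_all.2 fun i => by
        have := (hcont i).tendsto 1
        rw [map_one] at this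
        exact this hN0
      filter_upwards [this] with g hg
      exact Subgroup.mem_iInf.2 hg
    have hΦ : ∀ i, ∀ g ∈ N, Φ i g ∈ N := fun i g hg => Subgroup.mem_iInf.2 fun j => by
      rw [Subgroup.mem_comap]
      have := Subgroup.mem_iInf.1 hg (j + i)
      rw [Subgroup.mem_comap] at this
      exact (hadd j i g : Φ (j + i) g = Φ j (Φ i g)) ▸ this
    have := level hF hN Φ hΦ h0 hadd hcont hx _ _ (hf 1) (hu 1) (hf 2) (hu 2) 1
    have h2 := Subgroup.mem_iInf.1 this 0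
    rw [Subgroup.mem_comap] at h2
    rwa [show ∀ g, Φ 0 g = g from h0] at h2
  have e : Φ 1 = φ := by
    simp only [Φ]
    rw [ZMod.val_one, pow_one]
  have hy1 : φ y = y := by
    have := hu 1 1
    rwa [f1, one_mul, mul_one, e] at this
  exact MonoidHom.ext (hF.cont_ext (ψ := MonoidHom.id F) h.cont continuous_id (e ▸ hx 1) hy1)

end Pool.Agent.P.MP_48d5fc_al
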