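import Pool.Agent.P.MP_48d5fc_al.ThB

/-!
An involution whose exponent has `2`-component `-1` is not congruent to `1` modulo an odd number.
-/

open Classical Filter Topology

set_option linter.unusedSectionVars false
set_option linter.unusedVariables false

noncomputable section

namespace Pool.Agent.P.MP_48d5fc_al

/-- The Heisenberg group over the field with two elements. -/
def H3 : Type := ZMod 2 × ZMod 2 × ZMod 2

instance : Finite H3 := inferInstanceAs (Finite (ZMod 2 × ZMod 2 × ZMod 2))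

instance : Mul H3 := ⟨fun a b => (a.1 + b.1, a.2.1 + b.2.1, a.2.2 + b.2.2 + a.1 * b.2.1)⟩

instance : One H3 := ⟨(0, 0, 0)⟩

instance : Inv H3 := ⟨fun a => (-a.1, -a.2.1, -a.2.2 + a.1 * a.2.1)⟩

theorem H3.mul_def (a b : H3) :
    a * b = (a.1 + b.1, a.2.1 + b.2.1, a.2.2 + b.2.2 + a.1 * b.2.1) := rfl

theorem H3.one_def : (1 : H3) = (0, 0, 0) := rfl

theorem H3.inv_def (a : H3) : a⁻¹ = (-a.1, -a.2.1, -a.2.2 + a.1 * a.2.1) := rfl

instance : Group H3 := Group.ofLeftAxioms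
  (fun a b c => by
    simp only [H3.mul_def]
    refine Prod.ext ?_ (Prod.ext ?_ ?_) <;> simp only <;> ring)
  (fun a => by
    simp only [H3.mul_def, H3.one_def]
    refine Prod.ext ?_ (Prod.ext ?_ ?_) <;> simp only <;> ring)
  (fun a => by
    simp only [H3.mul_def, H3.one_def, H3.inv_def]
    refine Prod.ext ?_ (Prod.ext ?_ ?_) <;> simp only <;> ring)

section
variable {N : Type} [Group N] {𝓕 : Filter N} {σ : N →* N}

/-- Functions that agree, on the inverted elements, with an invariant character plus a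
constant. -/
def Aff (𝓕 : Filter N) (σ : N →* N) (P : N → ZMod 2) : Prop :=
  ∃ (ψ : N →* Multiplicative (ZMod 2)) (c : ZMod 2), (∀ᶠ g in 𝓕, ψ g = 1) ∧
    (∀ g, ψ (σ g) = ψ g) ∧ ∀ g, g * σ g = 1 → P g = (ψ g).toAdd + c

theorem Aff.mul (hP : Proj N 𝓕) (hσ : Tendsto σ 𝓕 𝓕) (h2 : ∀ g, σ (σ g) = g) {P P' : N → ZMod 2}
    (h : Aff 𝓕 σ P) (h' : Aff 𝓕 σ P') : Aff 𝓕 σ fun g => P g * P' g := by
  obtain ⟨α, a, hα1, hα, ha⟩ := h
  obtain ⟨β, b, hβ1, hβ, hb⟩ := h'
  let π : H3 →* Multiplicative (ZMod 2) × Multiplicative (ZMod 2) :=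
    MonoidHom.mk' (fun u => (Multiplicative.ofAdd u.1, Multiplicative.ofAdd u.2.1)) fun _ _ => rfl
  obtain ⟨H, hH1, hH⟩ := hP H3 _ π (α.prod β) (by
    filter_upwards [hα1, hβ1] with g h1 h2
    exact Prod.ext h1 h2) fun g => ⟨((α g).toAdd, (β g).toAdd, 0), rfl⟩
  have e1 : ∀ g, (H g).1 = (α g).toAdd := fun g => congrArg (fun u => u.1.toAdd) (hH g)
  have e2 : ∀ g, (H g).2.1 = (β g).toAdd := fun g => congrArg (fun u => u.2.toAdd) (hH g)
  have e3 : ∀ g g', (H (g * g')).2.2 = (H g).2.2 + (H g').2.2 + (α g).toAdd * (β g').toAdd :=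
    fun g g' => by
      rw [map_mul, ← e1, ← e2]
      rfl
  have two : (2 : ZMod 2) = 0 := rfl
  refine ⟨MonoidHom.mk' (fun g => Multiplicative.ofAdd ((H g).2.2 + (H (σ g)).2.2 +
      b * (α g).toAdd + a * (β g).toAdd)) fun g g' => ?_, a * b, ?_, fun g => ?_, fun g hg => ?_⟩
  · rw [← ofAdd_add, map_mul σ, e3, e3, hα, hβ, map_mul α, map_mul β, toAdd_mul, toAdd_mul]
    congr 1
    linear_combination ((α g).toAdd * (β g').toAdd) * two
  · filter_upwards [hα1, hβ1, hH1, hσ.eventually hH1] with g h1 h3 h4 h5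
    simp [h1, h3, h4, h5, H3.one_def]
  · simp only [MonoidHom.mk'_apply, h2, hα, hβ, add_comm]
  · have := e3 g (σ g)
    rw [hg, map_one, hβ] at this
    have e4 : (0 : ZMod 2) = _ := this
    simp only [MonoidHom.mk'_apply, toAdd_ofAdd, ha g hg, hb g hg]
    linear_combination e4 + ((α g).toAdd * (β g).toAdd) * two

theorem Aff.prod (hP : Proj N 𝓕) (hσ : Tendsto σ 𝓕 𝓕) (h2 : ∀ g, σ (σ g) = g) {ι : Type}
    (P : ι → N → ZMod 2) (h : ∀ i, Aff 𝓕 σ (P i)) (I : Finset ι) :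
    Aff 𝓕 σ fun g => ∏ i ∈ I, P i g := by
  induction I using Finset.induction_on with
  | empty => exact ⟨1, 1, by simp, by simp, by simp⟩
  | insert i I hi ih =>
    simp only [Finset.prod_insert hi]
    exact (h i).mul hP hσ h2 ih

end

theorem no_order {Q : Type} [Group Q] [Fintype Q] (δ v : Q → ZMod 2) (h1 : δ 1 = 1)
    (h0 : ∀ q, q ≠ 1 → δ q = 0) (h : ∀ I : Finset Q, I.Nonempty →
      ∑ q, (∏ i ∈ I, (δ (q * i) + v (q * i)) + ∏ i ∈ I, v (q * i)) = 1) (d : Q) : d = 1 := by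
  by_contra hd
  have hv : ∀ e, e ≠ 1 → v e = 1 := fun e he => by
    by_contra hv
    have hv0 : v e = 0 := by
      revert hv
      generalize v e = w
      decide +revert
    have := h Finset.univ Finset.univ_nonempty
    rw [Finset.sum_eq_zero] at this
    · exact zero_ne_one this
    · intro q _
      rw [Finset.prod_eq_zero (Finset.mem_univ (q⁻¹ * e)), Finset.prod_eq_zero
        (Finset.mem_univ (q⁻¹ * e)), add_zero] <;> simp [hv0, h0 e he]
  have := h {1, d} (by simp)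
  simp only [Finset.prod_pair (Ne.symm hd), mul_one] at this
  rw [Finset.sum_eq_add (1 : Q) d⁻¹ (by simpa using hd)] at this
  · simp only [one_mul, inv_mul_cancel, h1, h0 d hd, h0 d⁻¹ (by simpa using hd), hv d hd,
      hv d⁻¹ (by simpa using hd)] at this
    revert this
    generalize v 1 = w
    decide +revert
  · intro q _ hq
    rw [h0 q hq.1, h0 (q * d) fun e => hq.2 (eq_inv_of_mul_eq_one_left e), zero_add, zero_add,
      CharTwo.add_self_eq_zero]
  · simp
  · simp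

variable {F : Type} [Group F] [TopologicalSpace F] [IsTopologicalGroup F] [CompactSpace F]
  {x y : F} {φ : Monoid.End F} {f : Fin 3 → F}

section
variable {N : Subgroup F} [N.Normal] {D : Type} [CommGroup D] (ρ : F →* D ≀ᵣ (F ⧸ N))
  (hρ : ∀ g, (ρ g).right = (g : F ⧸ N))
include hρ

theorem left_mul_base {n : F} (hn : n ∈ N) (g : F) (q : F ⧸ N) :
    (ρ (n * g)).left q = (ρ n).left q * (ρ g).left q := by
  have h1 : (n : F ⧸ N) = 1 := (QuotientGroup.eq_one_iff _).2 hn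
  simp [hρ, h1]

theorem left_conj' {n : F} (hn : n ∈ N) (g : F) (q : F ⧸ N) :
    (ρ (g⁻¹ * n * g)).left q = (ρ n).left (g * q) := by
  have h1 : (n : F ⧸ N) = 1 := (QuotientGroup.eq_one_iff _).2 hn
  simp [hρ, h1]

theorem base_comm {n n' : F} (hn : n ∈ N) (hn' : n' ∈ N) : ρ n * ρ n' = ρ n' * ρ n := by
  have h1 : (n : F ⧸ N) = 1 := (QuotientGroup.eq_one_iff _).2 hn
  have h2 : (n' : F ⧸ N) = 1 := (QuotientGroup.eq_one_iff _).2 hn'
  ext q
  · simp [hρ, h1, h2, mul_comm]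
  · simp [hρ, h1, h2]

end

theorem thC (hF : FreePro x y) (h : Sp x y φ f) (hφ : φ ^ 2 = 1)
    (hl : ∀ r, Lam x y φ f (2 ^ r) (-1)) {m : ℕ} (hm : Odd m) (hc : Lam x y φ f m 1) : m = 1 := by
  have hm0 : m ≠ 0 := hm.pos.ne'
  have : NeZero m := ⟨hm0⟩
  have hm2 : m.Coprime 2 := (Nat.coprime_two_right.2 hm)
  obtain ⟨χ, hχ, hx, hy⟩ := hF.ex (Multiplicative (ZMod m)) 1 (Multiplicative.ofAdd 1)
  have hN : (χ.ker : Set F) ∈ 𝓝 1 := hχ
  have := finite_quot _ hN
  have : Fintype (F ⧸ χ.ker) := Fintype.ofFinite _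
  have h2 : ∀ g, φ (φ g) = g := fun g => by
    have := DFunLike.congr_fun hφ g
    rwa [pow_two] at this
  have hf : ∀ t, φ (f t) = (f t)⁻¹ := fun t => by
    have := (co_add (φ := φ) (f := f) 1 1 t).symm.trans (congrFun (h.co_eq_one hF hφ) t)
    rw [co_one, pow_one] at this
    exact eq_inv_of_mul_eq_one_right this
  have hχφ : ∀ g, χ (φ g) = χ g := fun g => (hc.chi_all hF h hχ hx g).trans (zpow_one _)
  have hΦ : ∀ g ∈ χ.ker, φ g ∈ χ.ker := fun g hg => (hχφ g).trans hg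
  have hfN : ∀ t, f t ∈ χ.ker := fun t => h.mem t m χ hχ hx
  choose d hd using fun t => exists_pp Nat.prime_two (cus x y t)
  set u : Fin 3 → F := fun t => cus x y t * d t ^ 2 with hu
  have huN : ∀ t, u t ∈ χ.ker := fun t => (hd t).mem hχ hm2
  have hinv : ∀ t, f t * φ (u t) * (f t)⁻¹ = (u t)⁻¹ := fun t =>
    ((hd t).fix hF h.cont hl).trans (zpow_neg_one _)
  obtain ⟨ρ, hρ1, hρx, hρy, hρ⟩ := hF.edge hN (D := Multiplicative (ZMod 2))
    (fun q => if q = 1 then Multiplicative.ofAdd 1 else 1) 1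
  have E1 : ∀ t, ρ (f t * φ (cus x y t) * (f t)⁻¹) = ρ (cus x y t) := fun t => by
    obtain ⟨j, h1, h3⟩ := Lam.crt hF hm0 two_ne_zero hm2 hc ((hl 1).mono dvd_rfl (by norm_num))
      _ ρ hρ1
    rw [h3, ← zpow_one (ρ (cus x y t)), ← zpow_mul, one_mul]
    refine zpow_eq_of_dvd ?_ h1
    rw [pow_mul, ← map_pow]
    refine base_pow ρ hρ ?_
    rw [MonoidHom.mem_ker, map_pow, ← ofAdd_toAdd (χ _), ← ofAdd_nsmul, nsmul_eq_mul,
      ZMod.natCast_self, zero_mul, ofAdd_zero]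
  have G : ∀ g, ρ (φ g) = (ρ (f 1))⁻¹ * ρ g * ρ (f 1) := by
    refine hF.hom_ext (ρ.comp φ) ((MulAut.conj (ρ (f 1))⁻¹).toMonoidHom.comp ρ)
      (Cts.comp hρ1 h.cont) (by
        filter_upwards [hρ1] with g hg
        simp [hg]) ?_ ?_ |> fun e g => by simpa using e g
    · have e : ρ (φ x) = ρ x := by
        have := E1 0
        rwa [h.f0, one_mul, inv_one, mul_one] at this
      change ρ (φ x) = (ρ (f 1))⁻¹ * ρ x * (ρ (f 1))⁻¹⁻¹
      rw [e, inv_inv, mul_assoc, base_comm ρ hρ hx (hfN 1), inv_mul_cancel_left]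
    · have e : ρ (f 1 * φ y * (f 1)⁻¹) = ρ y := E1 1
      change ρ (φ y) = (ρ (f 1))⁻¹ * ρ y * (ρ (f 1))⁻¹⁻¹
      rw [← e]
      simp [mul_assoc]
  let σ := resN φ hΦ
  have hT : Tendsto σ (comap Subtype.val (𝓝 (1 : F))) (comap Subtype.val (𝓝 (1 : F))) := by
    rw [tendsto_comap_iff]
    have := h.cont.tendsto 1
    rw [map_one] at this
    exact this.comp tendsto_comap
  let Y : F ⧸ χ.ker → χ.ker → ZMod 2 := fun i n =>
    ((ρ n).left i).toAdd + ((ρ (f 1)).left i).toAdd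
  have hY : ∀ i, Aff (comap Subtype.val (𝓝 (1 : F))) σ (Y i) := fun i => by
    refine ⟨MonoidHom.mk' (fun n => (ρ n).left i) fun a b => left_mul_base ρ hρ a.2 b i, _, ?_,
      fun n => ?_, fun _ _ => rfl⟩
    · filter_upwards [tendsto_comap.eventually hρ1] with n hn
      change (ρ n).left i = 1
      rw [hn]
      rfl
    · change (ρ (φ n)).left i = (ρ n).left i
      rw [G, mul_assoc, base_comm ρ hρ n.2 (hfN 1), inv_mul_cancel_left]
  have hs : ∀ q : F ⧸ χ.ker, ((q.out : F) : F ⧸ χ.ker) = q := fun q => q.out_eq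
  let n : Fin 3 → F ⧸ χ.ker → χ.ker := fun t q => ⟨q.out⁻¹ * f t * φ q.out, by
    rw [MonoidHom.mem_ker, map_mul, map_mul, map_inv, hχφ, MonoidHom.mem_ker.1 (hfN t), mul_one,
      inv_mul_cancel]⟩
  let c : Fin 3 → F ⧸ χ.ker → χ.ker := fun t q => ⟨q.out⁻¹ * u t * q.out, by
    simpa using (inferInstance : χ.ker.Normal).conj_mem _ (huN t) q.out⁻¹⟩
  have ID : ∀ P, Aff (comap Subtype.val (𝓝 (1 : F))) σ P →
      ∑ t, ∑ q, (P (c t q * n t q) + P (n t q)) = 0 := by
    rintro P ⟨ψ, k, -, -, hP⟩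
    have e : ∀ t, ∑ q, (P (c t q * n t q) + P (n t q)) = (tr (kappa _ hs ψ) (cus x y t)).toAdd := by
      intro t
      rw [← hom_pp _ _ (d t), tr_apply, toAdd_prod]
      refine Finset.sum_congr rfl fun q _ => ?_
      have h1 : ((u t : F) : F ⧸ χ.ker) = 1 := (QuotientGroup.eq_one_iff _).2 (huN t)
      rw [kappa_left _ hs ψ (u t) q (c t q) (by rw [h1, inv_one, one_mul]), hP, hP, map_mul,
        toAdd_mul]
      · have two : (2 : ZMod 2) = 0 := rfl
        linear_combination ((ψ (n t q)).toAdd + k) * two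
      · refine Subtype.ext ?_
        change q.out⁻¹ * f t * φ q.out * φ (q.out⁻¹ * f t * φ q.out) = 1
        simp [hf, h2, mul_assoc]
      · refine Subtype.ext ?_
        change q.out⁻¹ * u t * q.out * (q.out⁻¹ * f t * φ q.out) *
          φ (q.out⁻¹ * u t * q.out * (q.out⁻¹ * f t * φ q.out)) = 1
        have e3 : φ (u t) = (f t)⁻¹ * (u t)⁻¹ * f t := by
          rw [← hinv]
          group
        simp [hf, h2, e3, mul_assoc]
    simp only [e, Fin.sum_univ_three]
    rw [← toAdd_mul, ← toAdd_mul, hom_cus, toAdd_one]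
  let b : Fin 3 → F ⧸ χ.ker → ZMod 2 := fun t i => ((ρ (f t * (f 1)⁻¹)).left i).toAdd
  let e : Fin 3 → F ⧸ χ.ker → ZMod 2 := fun t i => ((ρ (u t)).left i).toAdd
  have hbN : ∀ t, f t * (f 1)⁻¹ ∈ χ.ker := fun t => mul_mem (hfN t) (inv_mem (hfN 1))
  have Yn : ∀ t q i, Y i (n t q) = b t (q * i) := fun t q i => by
    have e1 : ρ (q.out⁻¹ * f t * φ q.out) = ρ (q.out⁻¹ * (f t * (f 1)⁻¹) * q.out * f 1) := by
      simp [G, mul_assoc]
    change ((ρ (q.out⁻¹ * f t * φ q.out)).left i).toAdd + _ = _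
    rw [e1, left_mul_base ρ hρ (by
      simpa using (inferInstance : χ.ker.Normal).conj_mem _ (hbN t) q.out⁻¹),
      left_conj' ρ hρ (hbN t), hs, toAdd_mul, add_assoc, CharTwo.add_self_eq_zero, add_zero]
  have Yc : ∀ t q i, Y i (c t q * n t q) = e t (q * i) + b t (q * i) := fun t q i => by
    rw [← Yn]
    change ((ρ (c t q * n t q)).left i).toAdd + _ = _
    rw [left_mul_base ρ hρ (c t q).2, toAdd_mul, add_assoc]
    congr 2
    exact (left_conj' ρ hρ (huN t) _ i).trans (by rw [hs])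
  have tx : tr ρ (cus x y 0) = Multiplicative.ofAdd 1 := by
    rw [tr_apply, show cus x y 0 = x from rfl, hρx]
    simp
  have ty : tr ρ (cus x y 1) = 1 := by
    rw [tr_apply, show cus x y 1 = y from rfl, hρy]
    simp
  have tz : tr ρ (cus x y 2) = Multiplicative.ofAdd 1 := by
    have := hom_cus (x := x) (y := y) (tr ρ)
    rw [tx, ty, mul_one] at this
    exact (eq_inv_of_mul_eq_one_right this).trans rfl
  have el : ∀ t, t ≠ 0 → ∀ i, e t i = (tr ρ (cus x y t)).toAdd := fun t ht i => by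
    have : ∀ (a : Multiplicative (ZMod 2)) (j : ℕ), Odd j → a ^ j = a := by
      rintro a _ ⟨k, rfl⟩
      rw [pow_succ, pow_mul, pow_p, one_pow, one_mul]
    rw [← (hd t).left hχ hx hy hm2 hρ1 hρ ht i, this _ _ hm]
  have e0 : ρ (u 0) = ρ x := by
    obtain ⟨a, r, e2, -⟩ := (hd 0).eq hρ1
    rwa [pow_add, pow_one, mul_comm a, pow_mul, base_pow ρ hρ (n := cus x y 0) hx, one_pow,
      mul_one] at e2
  have b2 : ∀ i, b 2 i = b 2 1 := fun i => by
    refine congrArg Multiplicative.toAdd (comm_const hx hy ρ hρ (t := 2) (by decide) (hbN 2) ?_ i)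
    have := E1 2
    rw [map_mul, map_mul, G, map_inv, mul_inv_eq_iff_eq_mul] at this
    rw [commute_iff_eq, map_mul, map_inv, ← mul_assoc, ← this]
    group
  have hcard : ((Fintype.card (F ⧸ χ.ker) : ℕ) : ZMod 2) = 1 := by
    rw [card_ker hy]
    exact hm.natCast_zmod_two
  have triv := no_order (e 0) (b 0) (by simp [e, e0, hρx]) (fun q hq => by simp [e, e0, hρx, hq])
    fun I hI => by
      have := ID _ (Aff.prod (hF.proj hN) hT (fun g => Subtype.ext (h2 g)) Y hY I)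
      simp only [Yn, Yc, Fin.sum_univ_three, el 1 (by decide), el 2 (by decide), ty, tz, b2,
        toAdd_one, zero_add, CharTwo.add_self_eq_zero, Finset.sum_const_zero, add_zero,
        toAdd_ofAdd, Finset.prod_const, Finset.sum_const, Finset.card_univ, nsmul_eq_mul, hcard,
        one_mul] at this
      have hk : (1 + b 2 1) ^ I.card + b 2 1 ^ I.card = 1 := by
        obtain ⟨k, hk⟩ := Nat.exists_eq_succ_of_ne_zero hI.card_pos.ne'
        rw [hk]
        have : b 2 1 = 0 ∨ b 2 1 = 1 := by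
          generalize b 2 1 = w
          decide +revert
        rcases this with h3 | h3 <;> simp [h3, CharTwo.add_self_eq_zero]
      rw [hk] at this
      exact (eq_neg_of_add_eq_zero_left this).trans rfl
  rw [← card_ker hy]
  exact Fintype.card_eq_one_iff.2 ⟨1, triv⟩

end Pool.Agent.P.MP_48d5fc_al
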