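import Pool.Agent.P.MP_48d5fc_al.Conv

/-!
The algebra of repetition-free words in the alphabet `ZMod p`, its commutative shadow,
the shift action and the functional used in the Smith-type lemma.
-/

open Classical

set_option linter.unusedSectionVars false

noncomputable section

namespace Pool.Agent.P.MP_48d5fc_al

variable {p : ℕ} [hp : Fact p.Prime]

/-- The multiset of letters of a word. -/
def ms : FreeMonoid (ZMod p) →* Multiplicative (Multiset (ZMod p)) where
  toFun w := Multiplicative.ofAdd (↑(FreeMonoid.toList w) : Multiset (ZMod p))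
  map_one' := rfl
  map_mul' u v := by
    rw [← ofAdd_add, FreeMonoid.toList_mul, Multiset.coe_add]

variable (p) in
def GB : Gd (Multiplicative (Multiset (ZMod p))) where
  p m := m.toAdd.Nodup
  one := Multiset.nodup_zero
  left u v h := by
    rw [toAdd_mul, Multiset.nodup_add] at h
    exact h.1
  right u v h := by
    rw [toAdd_mul, Multiset.nodup_add] at h
    exact h.2.1
  fin := Finite.of_injective
    (fun m : {m : Multiplicative (Multiset (ZMod p)) // m.toAdd.Nodup} =>
      (⟨m.1.toAdd, m.2⟩ : Finset (ZMod p)))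
    fun a b h => Subtype.ext (by simpa using h)

variable (p) in
def GA : Gd (FreeMonoid (ZMod p)) where
  p w := (GB p).p (ms w)
  one := (GB p).one
  left u v h := by
    rw [map_mul] at h
    exact (GB p).left _ _ h
  right u v h := by
    rw [map_mul] at h
    exact (GB p).right _ _ h
  fin := Finite.of_injective
    (fun w : {w : FreeMonoid (ZMod p) // (GB p).p (ms w)} =>
      (⟨FreeMonoid.toList w.1, w.2⟩ : {l : List (ZMod p) // l.Nodup}))
    fun a b h => Subtype.ext (by simpa using h)

variable (p) in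
abbrev WA : Type := Cv (GA p) (ZMod p)

variable (p) in
abbrev WB : Type := Cv (GB p) (ZMod p)

def ab : WA p →+* WB p := push (GA p) (GB p) ms fun _ h => h

def shA (i : ZMod p) : FreeMonoid (ZMod p) →* FreeMonoid (ZMod p) := FreeMonoid.map (· + i)

def shB (i : ZMod p) : Multiplicative (Multiset (ZMod p)) →* Multiplicative (Multiset (ZMod p)) where
  toFun m := Multiplicative.ofAdd (m.toAdd.map (· + i))
  map_one' := rfl
  map_mul' u v := by rw [toAdd_mul, Multiset.map_add, ofAdd_add]

theorem ms_sh (i : ZMod p) (w : FreeMonoid (ZMod p)) : ms (shA i w) = shB i (ms w) := by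
  simp [ms, shA, shB, FreeMonoid.toList_map]

theorem shB_good (i : ZMod p) (m : Multiplicative (Multiset (ZMod p))) :
    (GB p).p (shB i m) ↔ (GB p).p m :=
  Multiset.nodup_map_iff_of_injective (add_left_injective i)

theorem shA_good (i : ZMod p) (w : FreeMonoid (ZMod p)) : (GA p).p (shA i w) ↔ (GA p).p w := by
  change (GB p).p (ms (shA i w)) ↔ (GB p).p (ms w)
  rw [ms_sh, shB_good]

theorem shA_shA (i j : ZMod p) (w : FreeMonoid (ZMod p)) : shA i (shA j w) = shA (i + j) w := by
  unfold shA
  rw [FreeMonoid.map_map]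
  congr 2
  funext a
  simp only [Function.comp]
  ring

theorem shA_zero (w : FreeMonoid (ZMod p)) : shA 0 w = w := by
  have : (fun a : ZMod p => a + 0) = id := by funext a; simp
  unfold shA
  rw [this, FreeMonoid.map_id]
  rfl

def sA (i : ZMod p) : WA p →+* WA p :=
  push (GA p) (GA p) (shA i) fun w h => (shA_good i w).1 h

def sB (i : ZMod p) : WB p →+* WB p :=
  push (GB p) (GB p) (shB i) fun w h => (shB_good i w).1 h

theorem ab_sA (i : ZMod p) (f : WA p) : ab (sA i f) = sB i (ab f) := by
  unfold ab sA sB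
  rw [push_push _ _ _ _ (ms.comp (shA i)) (fun w h => (shA_good i w).1 h) (fun _ => rfl),
    push_push _ _ _ _ (ms.comp (shA i)) (fun w h => (shA_good i w).1 h)
      (fun w => (ms_sh i w).symm)]

/-- The shifted word. -/
def shT (i : ZMod p) (w : (GA p).T) : (GA p).T := ⟨shA i w.1, (shA_good i w.1).2 w.2⟩

theorem sA_apply (i : ZMod p) (f : WA p) (w : (GA p).T) : sA i f w = f (shT (-i) w) := by
  refine push_eq _ _ _ _ _ fun u => ⟨fun h => ?_, fun h => ?_⟩
  · simp [shT, ← h, shA_shA, shA_zero]
  · simp [shT, ← h, shA_shA, shA_zero]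

theorem shT_shT (i j : ZMod p) (w : (GA p).T) : shT i (shT j w) = shT (i + j) w :=
  Subtype.ext (shA_shA i j w.1)

theorem shT_zero (w : (GA p).T) : shT 0 w = w := Subtype.ext (shA_zero w.1)

theorem sA_sA (i j : ZMod p) (f : WA p) : sA i (sA j f) = sA (i + j) f := by
  refine Cv.ext fun w => ?_
  rw [sA_apply, sA_apply, sA_apply, shT_shT]
  congr 2
  ring

theorem sA_zero (f : WA p) : sA 0 f = f := by
  refine Cv.ext fun w => ?_
  rw [sA_apply, neg_zero, shT_zero]

def len (w : FreeMonoid (ZMod p)) : ℕ := Multiset.card (ms w).toAdd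

theorem len_mul (u v : FreeMonoid (ZMod p)) : len (u * v) = len u + len v := by
  simp [len]

theorem len_sh (i : ZMod p) (w : FreeMonoid (ZMod p)) : len (shA i w) = len w := by
  simp [len, ms_sh, shB]

theorem len_le (w : (GA p).T) : len w.1 ≤ p := by
  have := Finset.card_le_univ (⟨(ms w.1).toAdd, w.2⟩ : Finset (ZMod p))
  rw [ZMod.card] at this
  exact this

theorem eq_one_of_len {w : FreeMonoid (ZMod p)} (h : len w = 0) : w = 1 := by
  apply FreeMonoid.toList.injective
  simpa [len, ms] using h

/-- The length filtration. -/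
def J (j : ℕ) (f : WA p) : Prop := Jl len j f

theorem J.mul {i j : ℕ} {f g : WA p} (hf : J i f) (hg : J j g) : J (i + j) (f * g) :=
  Jl.mul len_mul hf hg

theorem J.triv (f : WA p) : J 0 f := fun _ h => absurd h (Nat.not_lt_zero _)

theorem J.mono {i j : ℕ} {f : WA p} (hf : J j f) (h : i ≤ j) : J i f :=
  fun w hw => hf w (lt_of_lt_of_le hw h)

theorem J.mul_left {j : ℕ} {g : WA p} (hg : J j g) (f : WA p) : J j (f * g) := by
  simpa using (J.triv f).mul hg

theorem J.mul_right {j : ℕ} {f : WA p} (hf : J j f) (g : WA p) : J j (f * g) := by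
  simpa using hf.mul (J.triv g)

theorem J.add {j : ℕ} {f g : WA p} (hf : J j f) (hg : J j g) : J j (f + g) :=
  fun w hw => by rw [Cv.add_apply, hf w hw, hg w hw, add_zero]

theorem J.sub {j : ℕ} {f g : WA p} (hf : J j f) (hg : J j g) : J j (f - g) :=
  fun w hw => by rw [Cv.sub_apply, hf w hw, hg w hw, sub_zero]

theorem J.zero (j : ℕ) : J j (0 : WA p) := fun _ _ => rfl

theorem J.symm {j : ℕ} {f g : WA p} (h : J j (f - g)) : J j (g - f) := by
  simpa using (J.zero j).sub h

theorem J.trans {j : ℕ} {f g h : WA p} (h1 : J j (f - g)) (h2 : J j (g - h)) : J j (f - h) := by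
  simpa using h1.add h2

theorem J.sA {j : ℕ} {f : WA p} (hf : J j f) (i : ZMod p) : J j (sA i f) := fun w hw => by
  rw [sA_apply]
  exact hf _ (by simpa [shT, len_sh] using hw)

theorem J.eq_zero {f : WA p} (hf : J (p + 1) f) : f = 0 :=
  Cv.ext fun w => hf w (Nat.lt_succ_of_le (len_le w))

theorem J.pow {f : WA p} (hf : J 1 f) (n : ℕ) : J n (f ^ n) := by
  induction n with
  | zero => exact J.triv _
  | succ n ih => rw [pow_succ]; exact ih.mul hf

theorem J.isUnit {f : WA p} (hf : J 1 (f - 1)) : IsUnit f := by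
  have : IsNilpotent (f - 1) := ⟨p + 1, (hf.pow _).eq_zero⟩
  simpa using this.isUnit_one_add

theorem J.one_mul {f g : WA p} (hf : J 1 (f - 1)) (hg : J 1 (g - 1)) : J 1 (f * g - 1) := by
  have : f * g - 1 = (f - 1) * g + (g - 1) := by noncomm_ring
  rw [this]
  exact (hf.mul_right g).add hg

theorem J.one_sA {f : WA p} (hf : J 1 (f - 1)) (i : ZMod p) : J 1 (Pool.Agent.P.MP_48d5fc_al.sA i f - 1) := by
  simpa using hf.sA i

theorem J.top_mul {b u : WA p} (hb : J p b) (hu : J 1 (u - 1)) : b * u = b := by
  have := (hb.mul hu).eq_zero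
  rw [mul_sub, mul_one, sub_eq_zero] at this
  exact this

theorem J.mul_top {b u : WA p} (hb : J p b) (hu : J 1 (u - 1)) : u * b = b := by
  have := (hu.mul hb)
  rw [add_comm] at this
  have := this.eq_zero
  rw [sub_mul, _root_.one_mul, sub_eq_zero] at this
  exact this

theorem J.of_ab {f u : WA p} (h : ab f = ab u) (hu : J 1 (u - 1)) : J 1 (f - 1) := by
  intro w hw
  have hw1 : w.1 = 1 := eq_one_of_len (by omega)
  have e : ∀ g : WA p, ab g ⟨1, (GB p).one⟩ = g w := fun g => by
    refine push_eq _ _ _ _ _ fun v => ⟨fun h => ?_, fun h => ?_⟩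
    · rw [hw1]
      exact (eq_one_of_len (by simp [len, h])).symm
    · rw [← h, hw1, map_one]
  have := hu w hw
  rw [Cv.sub_apply] at this ⊢
  rw [← e f, h, e u, this]

/-- The mean of the letters. -/
def kk (m : Multiplicative (Multiset (ZMod p))) : ZMod p :=
  m.toAdd.sum / (Multiset.card m.toAdd : ZMod p)

theorem kk_shT (i : ZMod p) (w : (GA p).T) (h0 : 0 < len w.1) (h1 : len w.1 < p) :
    kk (ms (shT i w).1) = kk (ms w.1) + i := by
  have hc : ((Multiset.card (ms w.1).toAdd : ℕ) : ZMod p) ≠ 0 := by
    rw [Ne, ZMod.natCast_eq_zero_iff]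
    exact Nat.not_dvd_of_pos_of_lt h0 h1
  simp only [shT, ms_sh, kk, shB, MonoidHom.coe_mk, OneHom.coe_mk, toAdd_ofAdd, Multiset.card_map,
    Multiset.sum_map_add, Multiset.map_id', Multiset.map_const', Multiset.sum_replicate,
    nsmul_eq_mul]
  field_simp

/-- Patching a family along the mean of the letters. -/
def patch (F : ZMod p → WA p) : WA p := fun w => F (kk (ms w.1)) w

theorem ab_patch {F : ZMod p → WA p} {b : WB p} (h : ∀ i, ab (F i) = b) : ab (patch F) = b := by
  refine Cv.ext fun m => ?_
  rw [← h (kk m.1)]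
  unfold ab
  rw [push_apply, push_apply]
  refine Finset.sum_congr rfl fun w _ => ?_
  split_ifs with e
  · rw [patch, e]
  · rfl

theorem J.patch {F : ZMod p → WA p} {g : WA p} {j : ℕ} (h : ∀ i, J j (F i - g)) :
    J j (patch F - g) := fun w hw => h _ w hw

def Yb (i a : ZMod p) : WB p := dl (GB p) (Multiplicative.ofAdd {i}) a

/-- The group-like elements of the commutative algebra. -/
def alpha (a : ZMod p → ZMod p) : WB p := ∏ i, (1 + Yb i (a i))

theorem alpha_zero : alpha (fun _ : ZMod p => (0 : ZMod p)) = 1 := by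
  simp [alpha, Yb, dl_zero]

theorem alpha_add (a b : ZMod p → ZMod p) : alpha (fun i => a i + b i) = alpha a * alpha b := by
  unfold alpha
  rw [← Finset.prod_mul_distrib]
  refine Finset.prod_congr rfl fun i _ => ?_
  have : Yb i (a i) * Yb i (b i) = 0 := by
    unfold Yb
    rw [dl_mul, dl_bad]
    simp [GB]
  have e : Yb i (a i + b i) = Yb i (a i) + Yb i (b i) := dl_add _ _ _
  rw [e]
  linear_combination -this

theorem sB_alpha (m : ZMod p) (a : ZMod p → ZMod p) :
    sB m (alpha a) = alpha fun i => a (i - m) := by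
  unfold alpha
  rw [map_prod, ← Equiv.prod_comp (Equiv.addRight m) fun i => 1 + Yb i (a (i - m))]
  refine Finset.prod_congr rfl fun i _ => ?_
  rw [map_add, map_one]
  unfold Yb sB
  rw [push_dl]
  simp [shB]

theorem exists_ab (a : ZMod p → ZMod p) : ∃ u : WA p, J 1 (u - 1) ∧ ab u = alpha a := by
  unfold alpha
  refine Finset.prod_induction _ (fun b => ∃ u : WA p, J 1 (u - 1) ∧ ab u = b) ?_ ?_ ?_
  · rintro _ _ ⟨u, hu, rfl⟩ ⟨v, hv, rfl⟩
    exact ⟨u * v, hu.one_mul hv, map_mul _ _ _⟩
  · exact ⟨1, by simpa using J.zero 1, map_one _⟩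
  · intro i _
    refine ⟨1 + dl (GA p) (FreeMonoid.of i) (a i), ?_, ?_⟩
    · intro w hw
      have hw1 : w.1 = 1 := eq_one_of_len (by omega)
      rw [add_sub_cancel_left, dl, if_neg]
      rw [hw1]
      exact FreeMonoid.of_ne_one i
    · rw [map_add, map_one]
      unfold ab
      rw [push_dl]
      rfl

variable (p) in
/-- The full alphabet. -/
def top : (GB p).T := ⟨Multiplicative.ofAdd Finset.univ.val, Finset.univ.nodup⟩

theorem prod_Yb (T : Finset (ZMod p)) (a : ZMod p → ZMod p) :
    ∏ i ∈ T, Yb i (a i) = dl (GB p) (Multiplicative.ofAdd T.val) (∏ i ∈ T, a i) := by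
  induction T using Finset.cons_induction with
  | empty => exact dl_one.symm
  | cons i T hi ih =>
    rw [Finset.prod_cons, Finset.prod_cons, ih, Yb, dl_mul]
    rfl

theorem alpha_top (a : ZMod p → ZMod p) : alpha a (top p) = ∏ i, a i := by
  unfold alpha
  rw [Finset.prod_one_add, Cv.sum_apply, Finset.sum_eq_single Finset.univ]
  · rw [prod_Yb, dl]
    exact if_pos rfl
  · intro T _ hT
    rw [prod_Yb, dl, if_neg]
    intro e
    exact hT (Finset.val_injective (Multiplicative.ofAdd.injective e))
  · simp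

/-- The functional weighting full words by their first letter. -/
def theta (f : WA p) : ZMod p :=
  ∑ w : (GA p).T, if ms w.1 = (top p).1 then (FreeMonoid.toList w.1).headD 0 * f w else 0

theorem theta_add (f g : WA p) : theta (f + g) = theta f + theta g := by
  unfold theta
  rw [← Finset.sum_add_distrib]
  refine Finset.sum_congr rfl fun w _ => ?_
  split_ifs
  · rw [Cv.add_apply, mul_add]
  · simp

theorem theta_sub (f g : WA p) : theta (f - g) = theta f - theta g := by
  rw [eq_sub_iff_add_eq, ← theta_add, sub_add_cancel]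

theorem shB_top (i : ZMod p) : shB i (top p).1 = (top p).1 := by
  have := Multiset.map_univ_val_equiv (Equiv.addRight i)
  simpa [shB, top] using this

theorem theta_sA (f : WA p) : theta (sA 1 f) = theta f + ab f (top p) := by
  unfold theta ab
  rw [push_apply, ← Finset.sum_add_distrib]
  let e : (GA p).T ≃ (GA p).T :=
    ⟨shT 1, shT (-1), fun w => by simp [shT_shT, shT_zero], fun w => by simp [shT_shT, shT_zero]⟩
  rw [← Equiv.sum_comp e]
  refine Finset.sum_congr rfl fun w _ => ?_
  have e1 : sA 1 f (e w) = f w := by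
    rw [sA_apply]
    simp [e, shT_shT, shT_zero]
  have e2 : ms (e w).1 = (top p).1 ↔ ms w.1 = (top p).1 := by
    constructor
    · intro h
      have : ms w.1 = ms (shT (-1) (e w)).1 := by simp [e, shT_shT, shT_zero]
      rw [this, shT, ms_sh, h, shB_top]
    · intro h
      change ms (shA 1 w.1) = _
      rw [ms_sh, h, shB_top]
  simp only [e1, e2]
  split_ifs with h
  · have : (FreeMonoid.toList (e w).1).headD 0 = (FreeMonoid.toList w.1).headD 0 + 1 := by
      change (FreeMonoid.toList (shA 1 w.1)).headD 0 = _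
      unfold shA
      rw [FreeMonoid.toList_map]
      cases hl : FreeMonoid.toList w.1 with
      | nil =>
        exfalso
        have h2 : ((0 : ZMod p)) ∈ (ms w.1).toAdd := by
          rw [h]
          simp [top]
        simp [ms, hl] at h2
      | cons a l => simp
    rw [this]
    ring
  · simp

end Pool.Agent.P.MP_48d5fc_al
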